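import Pool.Agent.Work.MP_ceabe6_pr.Law

/-!
# The auxiliary event `SE`
-/

namespace Pool.Agent.Work.MP_ceabe6_pr

open MeasureTheory ProbabilityTheory
open scoped NNReal ENNReal

variable {m k n : ℕ} {v : ℝ≥0}

/-- there is a nonzero `v` with `(z - B) v = t r` and `|t| ≤ τ |v|` -/
def SE (z : ℂ) (τ : ℝ) (B : Fin n → Fin n → ℝ) (r : Fin n → ℝ) : Prop :=
  ∃ v : Fin n → ℂ, v ≠ 0 ∧ ∃ t : ℂ,
    (∀ i, z * v i - ∑ j, (B i j : ℂ) * v j = t * r i) ∧ ‖t‖ ^ 2 ≤ τ ^ 2 * ∑ j, ‖v j‖ ^ 2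

lemma sum_norm_sq_pos {v : Fin n → ℂ} (hv : v ≠ 0) : 0 < ∑ j, ‖v j‖ ^ 2 := by
  obtain ⟨i, hi⟩ := Function.ne_iff.mp hv
  exact Finset.sum_pos' (fun j _ => by positivity) ⟨i, Finset.mem_univ i, by
    have : 0 < ‖v i‖ := norm_pos_iff.mpr hi
    positivity⟩

/-- the compact set of normalised witnesses -/
def KS (n : ℕ) (τ : ℝ) : Set ((Fin n → ℂ) × ℂ) :=
  {p | ∑ j, ‖p.1 j‖ ^ 2 = 1 ∧ ‖p.2‖ ^ 2 ≤ τ ^ 2}

lemma isCompact_KS (n : ℕ) (τ : ℝ) : IsCompact (KS n τ) := by
  apply Metric.isCompact_of_isClosed_isBounded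
  · have c1 : Continuous (fun p : (Fin n → ℂ) × ℂ => ∑ j, ‖p.1 j‖ ^ 2) := by fun_prop
    have c2 : Continuous (fun p : (Fin n → ℂ) × ℂ => ‖p.2‖ ^ 2) := by fun_prop
    exact (isClosed_eq c1 continuous_const).inter (isClosed_le c2 continuous_const)
  · rw [isBounded_iff_forall_norm_le]
    refine ⟨max 1 |τ|, ?_⟩
    rintro ⟨p, t⟩ ⟨h1, h2⟩
    rw [Prod.norm_def]
    simp only at h1 h2
    apply max_le_max
    · rw [pi_norm_le_iff_of_nonneg zero_le_one]
      intro i
      have h3 : ‖p i‖ ^ 2 ≤ 1 := by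
        rw [← h1]
        exact Finset.single_le_sum (f := fun j => ‖p j‖ ^ 2) (fun j _ => by positivity)
          (Finset.mem_univ i)
      nlinarith [norm_nonneg (p i)]
    · have := sq_le_sq.mp h2
      rwa [abs_norm] at this

lemma SE_iff (z : ℂ) (τ : ℝ) (B : Fin n → Fin n → ℝ) (r : Fin n → ℝ) :
    SE z τ B r ↔ ∃ p ∈ KS n τ, ∀ i, z * p.1 i - ∑ j, (B i j : ℂ) * p.1 j = p.2 * r i := by
  constructor
  · rintro ⟨v, hv, t, h1, h2⟩
    have hs := sum_norm_sq_pos hv
    set s : ℝ := √(∑ j, ‖v j‖ ^ 2) with hsd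
    have hs0 : 0 < s := Real.sqrt_pos.mpr hs
    have hs2 : s ^ 2 = ∑ j, ‖v j‖ ^ 2 := Real.sq_sqrt hs.le
    have hsc : (s : ℂ) ≠ 0 := by exact_mod_cast hs0.ne'
    refine ⟨(fun i => v i / s, t / s), ⟨?_, ?_⟩, ?_⟩
    · simp only [norm_div, Complex.norm_real, Real.norm_eq_abs, div_pow, sq_abs]
      rw [← Finset.sum_div, ← hs2]
      field_simp
    · simp only [norm_div, Complex.norm_real, Real.norm_eq_abs, div_pow, sq_abs]
      rw [div_le_iff₀ (by positivity), hs2]
      exact h2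
    · intro i
      simp only
      have := h1 i
      calc z * (v i / s) - ∑ j, (B i j : ℂ) * (v j / s)
          = (z * v i - ∑ j, (B i j : ℂ) * v j) / s := by
            rw [sub_div, Finset.sum_div, mul_div_assoc]
            congr 1
            apply Finset.sum_congr rfl
            intro j _
            rw [mul_div_assoc]
        _ = _ := by rw [this]; ring
  · rintro ⟨⟨v, t⟩, ⟨h1, h2⟩, h3⟩
    simp only at h1 h2 h3
    refine ⟨v, ?_, t, h3, ?_⟩
    · rintro rfl
      simp at h1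
    · rw [h1, mul_one]; exact h2

lemma isClosed_SE (z : ℂ) (τ : ℝ) :
    IsClosed {q : (Fin n → Fin n → ℝ) × (Fin n → ℝ) | SE z τ q.1 q.2} := by
  have : CompactSpace (KS n τ) := isCompact_iff_compactSpace.mp (isCompact_KS n τ)
  set F : Set ((KS n τ) × ((Fin n → Fin n → ℝ) × (Fin n → ℝ))) :=
    {x | ∀ i, z * x.1.1.1 i - ∑ j, (x.2.1 i j : ℂ) * x.1.1.1 j = x.1.1.2 * x.2.2 i} with hF
  have hFc : IsClosed F := by
    rw [hF]
    have : {x : (KS n τ) × ((Fin n → Fin n → ℝ) × (Fin n → ℝ)) |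
        ∀ i, z * x.1.1.1 i - ∑ j, (x.2.1 i j : ℂ) * x.1.1.1 j = x.1.1.2 * x.2.2 i} =
        ⋂ i, {x | z * x.1.1.1 i - ∑ j, (x.2.1 i j : ℂ) * x.1.1.1 j = x.1.1.2 * x.2.2 i} := by
      ext x; simp
    rw [this]
    apply isClosed_iInter
    intro i
    apply isClosed_eq <;> fun_prop
  have himg : {q : (Fin n → Fin n → ℝ) × (Fin n → ℝ) | SE z τ q.1 q.2} = Prod.snd '' F := by
    ext q
    simp only [Set.mem_ofPred_eq, SE_iff, Set.mem_image]
    constructor
    · rintro ⟨p, hp, h⟩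
      exact ⟨(⟨p, hp⟩, q), h, rfl⟩
    · rintro ⟨⟨p, q'⟩, h, rfl⟩
      exact ⟨p.1, p.2, h⟩
  rw [himg]
  exact isClosedMap_snd_of_compactSpace F hFc

lemma measurableSet_SE (z : ℂ) (τ : ℝ) (r : Fin n → ℝ) (A : Fin n → Fin n → ℝ) :
    MeasurableSet {G : Fin n → Fin n → ℝ | SE z τ (A + G) r} := by
  apply IsClosed.measurableSet
  exact (isClosed_SE z τ).preimage
    (show Continuous (fun G : Fin n → Fin n → ℝ => (A + G, r)) by fun_prop)

/-- Householder reflection sending `r` to `|r| e₀` -/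
lemma exists_orth (r : Fin (m + 1) → ℝ) : ∃ Q : Matrix (Fin (m + 1)) (Fin (m + 1)) ℝ,
    Q * Q.transpose = 1 ∧ Q.transpose * Q = 1 ∧
      ∀ i, ∑ k, Q i k * r k = if i = 0 then √(∑ k, r k ^ 2) else 0 := by
  set ρ : ℝ := √(∑ k, r k ^ 2) with hρ
  have hρ2 : ρ ^ 2 = ∑ k, r k ^ 2 := Real.sq_sqrt (Finset.sum_nonneg (fun i _ => sq_nonneg _))
  set u : Fin (m + 1) → ℝ := fun i => r i - (if i = 0 then ρ else 0) with hu
  set N : ℝ := ∑ i, u i ^ 2 with hN
  set Q : Matrix (Fin (m + 1)) (Fin (m + 1)) ℝ :=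
    Matrix.of (fun i j => (if i = j then 1 else 0) - 2 * u i * u j / N) with hQ
  have hQT : Q.transpose = Q := by
    ext i j
    simp only [hQ, Matrix.transpose_apply, Matrix.of_apply]
    rw [show (if j = i then (1 : ℝ) else 0) = if i = j then 1 else 0 by simp [eq_comm]]
    ring
  have hur : ∑ k, u k * r k = ρ ^ 2 - ρ * r 0 := by
    simp only [hu, sub_mul, Finset.sum_sub_distrib, ite_mul, zero_mul]
    rw [Finset.sum_ite_eq' Finset.univ (0 : Fin (m + 1)), hρ2]
    simp [pow_two]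
  have hNN : N = 2 * ∑ k, u k * r k := by
    have h1 : N = ∑ k, u k * r k - ρ * u 0 := by
      rw [hN]
      have : ∀ k, u k ^ 2 = u k * r k - (if k = 0 then ρ * u k else 0) := by
        intro k
        by_cases hk : k = 0
        · simp only [hu, hk, if_true]; ring
        · simp only [hu, hk, if_false]; ring
      rw [Finset.sum_congr rfl (fun k _ => this k), Finset.sum_sub_distrib]
      congr 1
      rw [Finset.sum_ite_eq' Finset.univ (0 : Fin (m + 1))]
      simp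
    rw [h1, hur]
    simp only [hu, if_true]
    ring
  have hQQ : Q * Q = 1 := by
    ext i j
    rw [Matrix.mul_apply, Matrix.one_apply]
    have h1 : ∀ k, Q i k * Q k j = (if i = k then (if k = j then 1 else 0) else 0)
        - (if i = k then 2 * u k * u j / N else 0) - (if k = j then 2 * u i * u k / N else 0)
        + 4 * u i * u j / N ^ 2 * u k ^ 2 := by
      intro k
      simp only [hQ, Matrix.of_apply]
      by_cases h2 : k = j
      · subst h2
        by_cases h1 : i = k <;> simp [h1] <;> ring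
      · by_cases h1 : i = k <;> simp [h1, h2] <;> ring
    rw [Finset.sum_congr rfl (fun k _ => h1 k), Finset.sum_add_distrib, Finset.sum_sub_distrib,
      Finset.sum_sub_distrib, ← Finset.mul_sum, ← hN, Finset.sum_ite_eq Finset.univ i,
      Finset.sum_ite_eq Finset.univ i, Finset.sum_ite_eq' Finset.univ j]
    simp only [Finset.mem_univ, if_true]
    by_cases hN0 : N = 0
    · rw [hN0]; simp
    · field_simp
      ring
  refine ⟨Q, by rw [hQT, hQQ], by rw [hQT, hQQ], ?_⟩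
  intro i
  have h1 : ∀ k, Q i k * r k = (if i = k then r k else 0) - 2 * u i / N * (u k * r k) := by
    intro k
    simp only [hQ, Matrix.of_apply]
    by_cases h1 : i = k <;> simp [h1] <;> ring
  rw [Finset.sum_congr rfl (fun k _ => h1 k), Finset.sum_sub_distrib, ← Finset.mul_sum,
    Finset.sum_ite_eq Finset.univ i]
  simp only [Finset.mem_univ, if_true]
  by_cases hN0 : N = 0
  · have hu0 : u i = 0 := by
      have := (Finset.sum_eq_zero_iff_of_nonneg (fun j _ => sq_nonneg (u j))).mp hN0 i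
        (Finset.mem_univ i)
      exact pow_eq_zero_iff (two_ne_zero) |>.mp this
    rw [hu0]
    have : r i = u i + (if i = 0 then ρ else 0) := by simp [hu]
    rw [this, hu0]
    simp
  · have : 2 * u i / N * ∑ k, u k * r k = u i := by
      rw [hNN] at hN0 ⊢
      have hne : (∑ k, u k * r k) ≠ 0 := fun h => hN0 (by rw [h]; ring)
      field_simp
    rw [this]
    simp [hu]

end Pool.Agent.Work.MP_ceabe6_pr
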