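import Pool.Agent.Work.MP_ceabe6_pr.Det
import Pool.Agent.Work.MP_ceabe6_pr.Event

/-!
# Conditional bound given all rows except the first
-/

namespace Pool.Agent.Work.MP_ceabe6_pr

open MeasureTheory ProbabilityTheory
open scoped NNReal ENNReal

variable {m k n : ℕ} {v : ℝ≥0}

/-- rewriting of the equations of `SE` for a matrix with a separate first row -/
lemma SE_cons_iff (z : ℂ) (ρ : ℝ) (f : Fin (m + 1) → ℝ) (R : Fin m → Fin (m + 1) → ℝ) :
    SE z ρ (Fin.cons f R : Fin (m + 1) → Fin (m + 1) → ℝ) (Pi.single 0 1) ↔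
      ∃ v : Fin (m + 1) → ℂ, v ≠ 0 ∧
        (∀ i : Fin m, z * v i.succ - (R i 0 * v 0 + ∑ j : Fin m, (R i j.succ : ℂ) * v j.succ) = 0) ∧
        ‖z * v 0 - ∑ j, (f j : ℂ) * v j‖ ^ 2 ≤ ρ ^ 2 * ∑ j, ‖v j‖ ^ 2 := by
  unfold SE
  constructor
  · rintro ⟨v, hv, t, h1, h2⟩
    refine ⟨v, hv, ?_, ?_⟩
    · intro i
      have := h1 i.succ
      rw [Fin.sum_univ_succ] at this
      simpa [Fin.cons_succ, Pi.single_eq_of_ne (Fin.succ_ne_zero i)] using this
    · have := h1 0
      simp only [Fin.cons_zero, Pi.single_eq_same, Complex.ofReal_one, mul_one] at this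
      rw [this]
      exact h2
  · rintro ⟨v, hv, h1, h2⟩
    refine ⟨v, hv, z * v 0 - ∑ j, (f j : ℂ) * v j, ?_, h2⟩
    intro i
    refine Fin.cases ?_ (fun i => ?_) i
    · simp
    · rw [Fin.sum_univ_succ]
      have := h1 i
      simp only [Fin.cons_succ, Pi.single_eq_of_ne (Fin.succ_ne_zero i), Complex.ofReal_zero,
        mul_zero]
      exact this

lemma sqrt_bound (v P : ℝ) (hv : 0 < v) (hv1 : v ≤ 1) (hP : 1 ≤ P) :
    2 * v ≤ √(2 * Real.pi * (v * P)) := by
  apply Real.le_sqrt_of_sq_le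
  have h1 : v ^ 2 ≤ v * P := by nlinarith
  have h2 := Real.pi_gt_three
  have h3 : 0 ≤ v * P := by positivity
  nlinarith

set_option maxHeartbeats 1000000 in
theorem cond_bound (hv : v ≠ 0) (hv1 : (v : ℝ) ≤ 1) (z : ℂ) (hz : z.im ≠ 0) (N κ ρ : ℝ)
    (hN : 0 ≤ N) (hκ : 0 ≤ κ) (hρ : 0 ≤ ρ)
    (A0 : Fin (m + 1) → ℝ)
    (hA0 : ∀ p : Fin (m + 1) → ℝ, (∑ j, A0 j * p j) ^ 2 ≤ N ^ 2 * ∑ j, p j ^ 2)
    (R : Fin m → Fin (m + 1) → ℝ)
    (hR : ∀ p : Fin (m + 1) → ℝ, ∑ i, (∑ j, R i j * p j) ^ 2 ≤ κ ^ 2 * ∑ j, p j ^ 2)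
    (hinj : ∀ u : Fin m → ℂ, (∀ i, z * u i - ∑ j, (R i j.succ : ℂ) * u j = 0) → u = 0) :
    gpi (Fin (m + 1)) v {g | SE z ρ (Fin.cons (A0 + g) R : Fin (m + 1) → Fin (m + 1) → ℝ)
      (Pi.single 0 1)} ≤
    ENNReal.ofReal (ρ ^ 2 / (v * |z.im|) *
      (16 + 3 * N + 2 * (|z.im| + 2 * |z.re| + 2 * κ))) := by
  have hvpos : (0 : ℝ) < v := by positivity
  have hypos : 0 < |z.im| := abs_pos.mpr hz
  -- a solution of the lower equations has nonzero first coordinate
  have hv0 : ∀ u : Fin (m + 1) → ℂ, u ≠ 0 →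
      (∀ i : Fin m, z * u i.succ - (R i 0 * u 0 + ∑ j : Fin m, (R i j.succ : ℂ) * u j.succ) = 0) →
      u 0 ≠ 0 := by
    intro u hu h1 h0
    have h2 := hinj (fun i => u i.succ) (fun i => by
      have := h1 i
      rw [h0, mul_zero, zero_add] at this
      exact this)
    apply hu
    ext i
    refine Fin.cases ?_ (fun i => ?_) i
    · exact h0
    · exact congrFun h2 i
  by_cases hex : ∃ w : Fin m → ℂ, ∀ i, z * w i - ∑ j, (R i j.succ : ℂ) * w j = R i 0
  swap
  · have hempty : {g | SE z ρ (Fin.cons (A0 + g) R : Fin (m + 1) → Fin (m + 1) → ℝ)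
      (Pi.single 0 1)} = ∅ := by
      ext g
      simp only [Set.mem_ofPred_eq, Set.mem_empty_iff_false, iff_false]
      intro hg
      rw [SE_cons_iff] at hg
      obtain ⟨u, hu, h1, h2⟩ := hg
      have hu0 := hv0 u hu h1
      apply hex
      refine ⟨fun i => u i.succ / u 0, fun i => ?_⟩
      have h3 : ∑ j : Fin m, (R i j.succ : ℂ) * (u j.succ / u 0) =
          (∑ j : Fin m, (R i j.succ : ℂ) * u j.succ) / u 0 := by
        rw [Finset.sum_div]
        exact Finset.sum_congr rfl (fun j _ => by rw [mul_div_assoc])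
      rw [h3]
      have h4 := h1 i
      field_simp
      linear_combination h4
    rw [hempty, measure_empty]
    exact bot_le
  obtain ⟨w, hw⟩ := hex
  set a : Fin (m + 1) → ℝ := Fin.cons 1 (fun i => (w i).re) with ha
  set b : Fin (m + 1) → ℝ := Fin.cons 0 (fun i => (w i).im) with hb
  have ha0 : a 0 = 1 := rfl
  have hb0 : b 0 = 0 := rfl
  have has : ∀ i : Fin m, a i.succ = (w i).re := fun i => rfl
  have hbs : ∀ i : Fin m, b i.succ = (w i).im := fun i => rfl
  set W : ℝ := ∑ i : Fin m, (a i.succ ^ 2 + b i.succ ^ 2) with hW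
  have hW0 : 0 ≤ W := Finset.sum_nonneg (fun i _ => by positivity)
  set P : ℝ := ∑ j, a j ^ 2 with hP
  set Q : ℝ := ∑ j, b j ^ 2 with hQ
  set T : ℝ := ∑ j, a j * b j with hT
  set D : ℝ := P * Q - T ^ 2 with hD
  set c₁ : ℝ := z.re - ∑ j, a j * A0 j with hc₁
  set c₂ : ℝ := z.im - ∑ j, b j * A0 j with hc₂
  set ρ' : ℝ := √(ρ ^ 2 * (1 + W)) with hρ'
  have hρ'0 : 0 ≤ ρ' := Real.sqrt_nonneg _
  have hρ'2 : ρ' ^ 2 = ρ ^ 2 * (1 + W) := Real.sq_sqrt (by positivity)
  have e1 : ∀ i : Fin m, z.re * a i.succ - z.im * b i.succ = ∑ j, R i j * a j := by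
    intro i
    have h := congrArg Complex.re (hw i)
    simp only [Complex.sub_re, Complex.mul_re, Complex.re_sum, Complex.ofReal_re,
      Complex.ofReal_im, zero_mul, sub_zero] at h
    rw [Fin.sum_univ_succ, ha0, has, hbs]
    simp only [has]
    linarith
  have e2 : ∀ i : Fin m, z.re * b i.succ + z.im * a i.succ = ∑ j, R i j * b j := by
    intro i
    have h := congrArg Complex.im (hw i)
    simp only [Complex.sub_im, Complex.mul_im, Complex.im_sum, Complex.ofReal_re,
      Complex.ofReal_im, zero_mul, add_zero] at h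
    rw [Fin.sum_univ_succ, hb0, has, hbs]
    simp only [hbs]
    linarith
  -- the event is contained in a two dimensional slab
  have hsub : {g | SE z ρ (Fin.cons (A0 + g) R : Fin (m + 1) → Fin (m + 1) → ℝ)
      (Pi.single 0 1)} ⊆
      {g | |c₁ - ∑ j, a j * g j| ≤ ρ' ∧ |c₂ - ∑ j, b j * g j| ≤ ρ'} := by
    intro g hg
    rw [Set.mem_ofPred_eq, SE_cons_iff] at hg
    obtain ⟨u, hu, h1, h2⟩ := hg
    have hu0 := hv0 u hu h1
    have hus : ∀ i, u i.succ = u 0 * w i := by
      have h3 := hinj (fun i => u i.succ - u 0 * w i) (fun i => by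
        have h4 := h1 i
        have h5 := hw i
        have h6 : ∑ j : Fin m, (R i j.succ : ℂ) * (u j.succ - u 0 * w j) =
            ∑ j : Fin m, (R i j.succ : ℂ) * u j.succ - u 0 * ∑ j : Fin m, (R i j.succ : ℂ) * w j := by
          rw [Finset.mul_sum, ← Finset.sum_sub_distrib]
          exact Finset.sum_congr rfl (fun j _ => by ring)
        rw [h6]
        linear_combination h4 - u 0 * h5)
      intro i
      have := congrFun h3 i
      simp only [Pi.zero_apply] at this
      linear_combination this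
    have huc : ∀ j, u j = u 0 * (a j + b j * Complex.I) := by
      intro j
      refine Fin.cases ?_ (fun i => ?_) j
      · rw [ha0, hb0]; simp
      · rw [hus, has, hbs, Complex.re_add_im]
    set ζ : ℂ := z - ∑ j, (((A0 + g) j : ℝ) : ℂ) * (a j + b j * Complex.I) with hζ
    have h3 : z * u 0 - ∑ j, (((A0 + g) j : ℝ) : ℂ) * u j = u 0 * ζ := by
      rw [hζ, mul_sub, Finset.mul_sum, mul_comm z]
      congr 1
      apply Finset.sum_congr rfl
      intro j _
      rw [huc j]
      ring
    have h4 : ∑ j, ‖u j‖ ^ 2 = ‖u 0‖ ^ 2 * (1 + W) := by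
      rw [Fin.sum_univ_succ, mul_add, mul_one, hW, Finset.mul_sum]
      congr 1
      apply Finset.sum_congr rfl
      intro i _
      rw [hus, norm_mul, mul_pow, has, hbs, Complex.sq_norm (w i), Complex.normSq_apply]
      ring
    rw [h3, h4, norm_mul, mul_pow] at h2
    have hn0 : 0 < ‖u 0‖ ^ 2 := by
      have : 0 < ‖u 0‖ := norm_pos_iff.mpr hu0
      positivity
    have h5 : ‖ζ‖ ^ 2 ≤ ρ ^ 2 * (1 + W) := by
      have : ‖u 0‖ ^ 2 * ‖ζ‖ ^ 2 ≤ ‖u 0‖ ^ 2 * (ρ ^ 2 * (1 + W)) := by linarith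
      exact le_of_mul_le_mul_left this hn0
    have h6 : ‖ζ‖ ≤ ρ' := Real.le_sqrt_of_sq_le h5
    have hre : ζ.re = c₁ - ∑ j, a j * g j := by
      rw [hζ, hc₁]
      simp only [Complex.sub_re, Complex.re_sum, Complex.mul_re, Complex.add_re, Complex.ofReal_re,
        Complex.I_re, mul_zero, Complex.ofReal_im, Complex.I_im, mul_one, sub_self, add_zero,
        Complex.add_im, Complex.mul_im, zero_mul, sub_zero, Pi.add_apply]
      rw [sub_sub, ← Finset.sum_add_distrib]
      congr 1
      apply Finset.sum_congr rfl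
      intro j _
      ring
    have him : ζ.im = c₂ - ∑ j, b j * g j := by
      rw [hζ, hc₂]
      simp only [Complex.sub_im, Complex.im_sum, Complex.mul_re, Complex.add_re, Complex.ofReal_re,
        Complex.I_re, mul_zero, Complex.ofReal_im, Complex.I_im, mul_one, sub_self, add_zero,
        Complex.add_im, Complex.mul_im, zero_mul, zero_add, Pi.add_apply]
      rw [sub_sub, ← Finset.sum_add_distrib]
      congr 1
      apply Finset.sum_congr rfl
      intro j _
      ring
    refine ⟨?_, ?_⟩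
    · rw [← hre]; exact (Complex.abs_re_le_norm ζ).trans h6
    · rw [← him]; exact (Complex.abs_im_le_norm ζ).trans h6
  refine (measure_mono hsub).trans ?_
  set L : ℝ := |z.im| + 2 * |z.re| + 2 * κ with hL
  have hL0 : 0 ≤ L := by positivity
  have hpi := Real.pi_gt_three
  rcases le_or_gt 1 W with hW1 | hW1
  · -- case |w| ≥ 1
    obtain ⟨hDpos, hgram⟩ := gram_bound z.re z.im κ hz hκ a b ha0 hb0 R hR e1 e2 W hW hW1 D hD
    refine (gaussian_two hv a b D hDpos hD c₁ c₂ ρ' hρ'0).trans ?_
    apply ENNReal.ofReal_le_ofReal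
    rw [hρ'2]
    have hs : 0 < √D := Real.sqrt_pos.mpr hDpos
    have h1 : 2 * (ρ ^ 2 * (1 + W)) * (Real.pi * v * √D)⁻¹ ≤ ρ ^ 2 / (v * |z.im|) * (2 * L) := by
      rw [← div_eq_mul_inv, div_le_iff₀ (by positivity)]
      have h2 : ρ ^ 2 / (v * |z.im|) * (2 * L) * (Real.pi * v * √D) =
          ρ ^ 2 * Real.pi * (2 * L * √D) / |z.im| := by
        field_simp
      rw [h2, le_div_iff₀ hypos]
      calc 2 * (ρ ^ 2 * (1 + W)) * |z.im| = 2 * ρ ^ 2 * ((1 + W) * |z.im|) := by ring
        _ ≤ 2 * ρ ^ 2 * (2 * L * √D) := by gcongr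
        _ ≤ ρ ^ 2 * Real.pi * (2 * L * √D) := by
          have : 0 ≤ ρ ^ 2 * (2 * L * √D) := by positivity
          nlinarith
    refine h1.trans ?_
    have h2 : 0 ≤ ρ ^ 2 / (v * |z.im|) := by positivity
    apply mul_le_mul_of_nonneg_left _ h2
    linarith
  · -- case |w| < 1
    have hρ'3 : ρ' ^ 2 ≤ 2 * ρ ^ 2 := by
      rw [hρ'2]; nlinarith [sq_nonneg ρ]
    have hP1 : P = 1 + ∑ i : Fin m, a i.succ ^ 2 := by
      rw [hP, Fin.sum_univ_succ, ha0]; ring
    have hQ1 : Q = ∑ i : Fin m, b i.succ ^ 2 := by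
      rw [hQ, Fin.sum_univ_succ, hb0]; ring
    have hT1 : T = ∑ i : Fin m, a i.succ * b i.succ := by
      rw [hT, Fin.sum_univ_succ, hb0]; ring
    have hP1' : 1 ≤ P := by
      rw [hP1]
      have : 0 ≤ ∑ i : Fin m, a i.succ ^ 2 := Finset.sum_nonneg (fun i _ => sq_nonneg _)
      linarith
    have hQ0 : 0 ≤ Q := Finset.sum_nonneg (fun i _ => sq_nonneg _)
    have hDQ : Q ≤ D := by
      have hcs := Finset.sum_mul_sq_le_sq_mul_sq Finset.univ (fun i : Fin m => a i.succ)
        (fun i : Fin m => b i.succ)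
      rw [hD, hP1, hQ1, hT1]
      linarith
    have hfac : ∀ c d : ℝ, c ≤ d → ρ ^ 2 / (v * |z.im|) * c ≤ ρ ^ 2 / (v * |z.im|) * d := by
      intro c d hcd
      apply mul_le_mul_of_nonneg_left hcd (by positivity)
    rcases le_or_gt (|z.im| / 4) ρ' with hcase | hcase
    · -- (i)
      have hPpos : 0 < P := by linarith
      have hvP : Real.toNNReal (v * P) ≠ 0 := by
        rw [ne_eq, Real.toNNReal_eq_zero, not_le]; positivity
      have hcoe : ((Real.toNNReal (v * P) : ℝ≥0) : ℝ) = v * P := Real.coe_toNNReal _ (by positivity)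
      calc gpi (Fin (m + 1)) v {g | |c₁ - ∑ j, a j * g j| ≤ ρ' ∧ |c₂ - ∑ j, b j * g j| ≤ ρ'}
          ≤ gpi (Fin (m + 1)) v ((fun g => ∑ j, a j * g j) ⁻¹' {x | |c₁ - x| ≤ ρ'}) :=
            measure_mono (fun g hg => hg.1)
        _ = ((gpi (Fin (m + 1)) v).map (fun g => ∑ j, a j * g j)) {x | |c₁ - x| ≤ ρ'} := by
            rw [Measure.map_apply (measurable_lin a)]
            exact measurableSet_le (by fun_prop) measurable_const
        _ ≤ ENNReal.ofReal (2 * ρ' * (√(2 * Real.pi * (Real.toNNReal (v * P) : ℝ≥0)))⁻¹) := by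
            rw [map_lin]
            exact gaussian_interval _ hvP c₁ ρ'
        _ ≤ _ := by
            apply ENNReal.ofReal_le_ofReal
            rw [hcoe]
            have h1 := sqrt_bound v P hvpos hv1 hP1'
            have h2 : 2 * ρ' * (√(2 * Real.pi * (v * P)))⁻¹ ≤ 2 * ρ' * (2 * (v : ℝ))⁻¹ := by
              gcongr
            refine h2.trans ?_
            have h3 : 2 * ρ' * (2 * (v : ℝ))⁻¹ ≤ ρ ^ 2 / (v * |z.im|) * 16 := by
              rw [← div_eq_mul_inv, div_le_iff₀ (by positivity)]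
              have h4 : ρ ^ 2 / (v * |z.im|) * 16 * (2 * v) = 32 * ρ ^ 2 / |z.im| := by
                field_simp; ring
              rw [h4, le_div_iff₀ hypos]
              nlinarith
            refine h3.trans (hfac _ _ ?_)
            linarith
    · rcases le_or_gt (|z.im|) (2 * |∑ j, b j * A0 j|) with hcase2 | hcase2
      · -- (ii)
        have h1 : (∑ j, b j * A0 j) ^ 2 ≤ N ^ 2 * Q := by
          have := hA0 b
          have h2 : ∑ j, A0 j * b j = ∑ j, b j * A0 j :=
            Finset.sum_congr rfl (fun j _ => mul_comm _ _)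
          rw [h2] at this
          exact this
        have h2 : |∑ j, b j * A0 j| ≤ N * √Q := by
          rw [← Real.sqrt_sq hN, ← Real.sqrt_mul (by positivity), ← Real.sqrt_sq_eq_abs]
          exact Real.sqrt_le_sqrt h1
        have h3 : |z.im| ≤ 2 * N * √Q := by linarith
        have hQpos : 0 < Q := by
          rcases hQ0.eq_or_lt with h | h
          · exfalso
            rw [← h, Real.sqrt_zero, mul_zero] at h3
            linarith
          · exact h
        have hDpos : 0 < D := by linarith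
        have hsD : √Q ≤ √D := Real.sqrt_le_sqrt hDQ
        have hsQ : 0 < √Q := Real.sqrt_pos.mpr hQpos
        have hsD' : 0 < √D := Real.sqrt_pos.mpr hDpos
        refine (gaussian_two hv a b D hDpos hD c₁ c₂ ρ' hρ'0).trans ?_
        apply ENNReal.ofReal_le_ofReal
        have h4 : 2 * ρ' ^ 2 * (Real.pi * v * √D)⁻¹ ≤ ρ ^ 2 / (v * |z.im|) * (3 * N) := by
          rw [← div_eq_mul_inv, div_le_iff₀ (by positivity)]
          have h5 : ρ ^ 2 / (v * |z.im|) * (3 * N) * (Real.pi * v * √D) =
              ρ ^ 2 * Real.pi * (3 * N * √D) / |z.im| := by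
            field_simp
          rw [h5, le_div_iff₀ hypos]
          calc 2 * ρ' ^ 2 * |z.im| ≤ 2 * (2 * ρ ^ 2) * (2 * N * √D) := by
                gcongr
                refine h3.trans ?_
                gcongr
            _ = 8 * (ρ ^ 2 * (N * √D)) := by ring
            _ ≤ 3 * Real.pi * (ρ ^ 2 * (N * √D)) := by
                apply mul_le_mul_of_nonneg_right _ (by positivity)
                linarith
            _ = _ := by ring
        refine h4.trans (hfac _ _ ?_)
        linarith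
      · -- (iii)
        have hc2 : |z.im| / 4 + ρ' ≤ |c₂| := by
          have h1 : |z.im| ≤ |c₂| + |∑ j, b j * A0 j| := by
            calc |z.im| = |c₂ + ∑ j, b j * A0 j| := by rw [hc₂]; ring_nf
              _ ≤ _ := abs_add_le _ _
          linarith
        rcases hQ0.eq_or_lt with hQz | hQpos
        · have hbz : ∀ j, b j = 0 := by
            intro j
            have := (Finset.sum_eq_zero_iff_of_nonneg (fun j _ => sq_nonneg (b j))).mp hQz.symm j
              (Finset.mem_univ j)
            exact (pow_eq_zero_iff two_ne_zero).mp this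
          have hempty : {g : Fin (m + 1) → ℝ | |c₁ - ∑ j, a j * g j| ≤ ρ' ∧
              |c₂ - ∑ j, b j * g j| ≤ ρ'} = ∅ := by
            ext g
            simp only [Set.mem_ofPred_eq, Set.mem_empty_iff_false, iff_false]
            rintro ⟨_, h⟩
            simp only [hbz, zero_mul, Finset.sum_const_zero, sub_zero] at h
            linarith
          rw [hempty, measure_empty]
          exact bot_le
        · have hDpos : 0 < D := by linarith
          have hvQ : Real.toNNReal (v * Q) ≠ 0 := by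
            rw [ne_eq, Real.toNNReal_eq_zero, not_le]; positivity
          refine (gaussian_two' hv a b D hDpos hD c₁ c₂ ρ').trans ?_
          have h1 := gaussian_interval_far _ hvQ c₂ ρ' (|z.im| / 4) (by positivity) hc2
          have h2 : 1 ≤ D / Q := by rw [le_div_iff₀ hQpos]; linarith
          have h3 := sqrt_bound v (D / Q) hvpos hv1 h2
          calc ENNReal.ofReal (2 * ρ' * (√(2 * Real.pi * (v * (D / Q))))⁻¹) *
                (gaussianReal 0 (Real.toNNReal (v * Q))) {x | |c₂ - x| ≤ ρ'}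
              ≤ ENNReal.ofReal (2 * ρ' * (2 * (v : ℝ))⁻¹) *
                ENNReal.ofReal (2 * ρ' * (|z.im| / 4)⁻¹) := by
                gcongr
            _ = ENNReal.ofReal (8 * ρ' ^ 2 / (v * |z.im|)) := by
                rw [← ENNReal.ofReal_mul (by positivity)]
                congr 1
                field_simp
                ring
            _ ≤ _ := by
                apply ENNReal.ofReal_le_ofReal
                have h4 : 8 * ρ' ^ 2 / (v * |z.im|) ≤ ρ ^ 2 / (v * |z.im|) * 16 := by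
                  rw [div_mul_eq_mul_div]
                  apply div_le_div_of_nonneg_right _ (by positivity)
                  linarith
                refine h4.trans (hfac _ _ ?_)
                linarith

end Pool.Agent.Work.MP_ceabe6_pr
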