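import Mathlib

/-!
# Definitions used in the statement of the result for MP_ceabe6_pr
-/

namespace Pool.Agent.Work.MP_ceabe6_pr

open MeasureTheory ProbabilityTheory
open scoped NNReal

/-- The law of the array of entries of an `n × n` real Ginibre matrix: `n²` independent real
Gaussian random variables of mean `0` and variance `1/n`. -/
noncomputable def ginibre (n : ℕ) : Measure (Fin n → Fin n → ℝ) :=
  Measure.pi fun _ : Fin n => Measure.pi fun _ : Fin n => gaussianReal 0 ((n : ℝ≥0)⁻¹)

/-- The smallest singular value `σ_n(M)` of an `n × n` complex matrix `M`, `n ≥ 1`: the smallest of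
the square roots of the eigenvalues (with Mathlib's enumeration) of the Hermitian matrix `Mᴴ M`. -/
noncomputable def leastSV {n : ℕ} (M : Matrix (Fin n) (Fin n) ℂ) : ℝ :=
  ⨅ i : Fin n, √((Matrix.isHermitian_conjTranspose_mul_self M).eigenvalues i)

open scoped Matrix.Norms.L2Operator in
/-- The operator norm of a real matrix, as an operator on Euclidean space (Mathlib's `l²` operator
norm on matrices). -/
noncomputable def opNorm {n : ℕ} (A : Matrix (Fin n) (Fin n) ℝ) : ℝ := ‖A‖

/-- The matrix `z I - (A + G)`. -/
noncomputable def shifted {n : ℕ} (z : ℂ) (A : Matrix (Fin n) (Fin n) ℝ)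
    (G : Fin n → Fin n → ℝ) : Matrix (Fin n) (Fin n) ℂ :=
  z • (1 : Matrix (Fin n) (Fin n) ℂ) - (A + Matrix.of G).map Complex.ofReal

end Pool.Agent.Work.MP_ceabe6_pr
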