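import Mathlib

/-!
# Deterministic inequality for the Gram determinant
-/

namespace Pool.Agent.Work.MP_ceabe6_pr

variable {m : ℕ}

/-- Gram determinant lower bound when `|w| ≥ 1` -/
theorem gram_bound (x y κ : ℝ) (hy : y ≠ 0) (hκ : 0 ≤ κ) (a b : Fin (m + 1) → ℝ)
    (ha0 : a 0 = 1) (hb0 : b 0 = 0) (R : Fin m → Fin (m + 1) → ℝ)
    (hR : ∀ p : Fin (m + 1) → ℝ, ∑ i, (∑ j, R i j * p j) ^ 2 ≤ κ ^ 2 * ∑ j, p j ^ 2)
    (e1 : ∀ i : Fin m, x * a i.succ - y * b i.succ = ∑ j, R i j * a j)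
    (e2 : ∀ i : Fin m, x * b i.succ + y * a i.succ = ∑ j, R i j * b j)
    (W : ℝ) (hW : W = ∑ i : Fin m, (a i.succ ^ 2 + b i.succ ^ 2)) (hW1 : 1 ≤ W)
    (D : ℝ) (hD : D = (∑ i, a i ^ 2) * (∑ i, b i ^ 2) - (∑ i, a i * b i) ^ 2) :
    0 < D ∧ (1 + W) * |y| ≤ 2 * (|y| + 2 * |x| + 2 * κ) * √D := by
  set P := ∑ i, a i ^ 2 with hP
  set Q := ∑ i, b i ^ 2 with hQ
  set T := ∑ i, a i * b i with hT
  have hPQ : P + Q = 1 + W := by
    rw [hP, hQ, hW, Fin.sum_univ_succ, Fin.sum_univ_succ, ha0, hb0, Finset.sum_add_distrib]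
    ring
  have hy2 : 0 < y ^ 2 := by positivity
  set S2 : ℝ := y ^ 2 + 2 * x ^ 2 + 2 * κ ^ 2 with hS2
  have hS2pos : 0 < S2 := by positivity
  -- the key quadratic form inequality
  have key : ∀ s t : ℝ, y ^ 2 * ((s ^ 2 + t ^ 2) * W) ≤ S2 * (s ^ 2 * P + 2 * s * t * T + t ^ 2 * Q) := by
    intro s t
    set p : Fin (m + 1) → ℝ := fun j => s * a j + t * b j with hp
    have hpn : ∑ j, p j ^ 2 = s ^ 2 * P + 2 * s * t * T + t ^ 2 * Q := by
      rw [hP, hQ, hT, Finset.mul_sum, Finset.mul_sum, Finset.mul_sum, ← Finset.sum_add_distrib,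
        ← Finset.sum_add_distrib]
      apply Finset.sum_congr rfl
      intro j _
      simp only [hp]; ring
    rw [← hpn]
    have hRp : ∀ i : Fin m, ∑ j, R i j * p j =
        x * p i.succ - y * (s * b i.succ - t * a i.succ) := by
      intro i
      have h1 : ∑ j, R i j * p j = s * ∑ j, R i j * a j + t * ∑ j, R i j * b j := by
        rw [Finset.mul_sum, Finset.mul_sum, ← Finset.sum_add_distrib]
        apply Finset.sum_congr rfl
        intro j _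
        simp only [hp]; ring
      rw [h1, ← e1, ← e2]
      simp only [hp]; ring
    have h2 : y ^ 2 * ∑ i : Fin m, (s * b i.succ - t * a i.succ) ^ 2 ≤
        2 * x ^ 2 * ∑ i : Fin m, p i.succ ^ 2 + 2 * ∑ i : Fin m, (∑ j, R i j * p j) ^ 2 := by
      rw [Finset.mul_sum, Finset.mul_sum, Finset.mul_sum, ← Finset.sum_add_distrib]
      apply Finset.sum_le_sum
      intro i _
      rw [hRp i]
      nlinarith [sq_nonneg (2 * x * p i.succ - y * (s * b i.succ - t * a i.succ))]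
    have h3 : ∑ i : Fin m, p i.succ ^ 2 ≤ ∑ j, p j ^ 2 := by
      rw [Fin.sum_univ_succ (fun j => p j ^ 2)]
      nlinarith [sq_nonneg (p 0)]
    have h4 := hR p
    have h5 : (s ^ 2 + t ^ 2) * W = ∑ i : Fin m, p i.succ ^ 2 +
        ∑ i : Fin m, (s * b i.succ - t * a i.succ) ^ 2 := by
      rw [hW, Finset.mul_sum, ← Finset.sum_add_distrib]
      apply Finset.sum_congr rfl
      intro i _
      simp only [hp]; ring
    rw [h5, mul_add]
    have h6 : y ^ 2 * ∑ i : Fin m, p i.succ ^ 2 ≤ y ^ 2 * ∑ j, p j ^ 2 :=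
      mul_le_mul_of_nonneg_left h3 hy2.le
    have h7 : 2 * x ^ 2 * ∑ i : Fin m, p i.succ ^ 2 ≤ 2 * x ^ 2 * ∑ j, p j ^ 2 :=
      mul_le_mul_of_nonneg_left h3 (by positivity)
    rw [hS2]
    have h8 : 2 * ∑ i, (∑ j, R i j * p j) ^ 2 ≤ 2 * (κ ^ 2 * ∑ j, p j ^ 2) := by linarith
    have h9 : (y ^ 2 + 2 * x ^ 2 + 2 * κ ^ 2) * ∑ j, p j ^ 2 = y ^ 2 * ∑ j, p j ^ 2 +
      2 * x ^ 2 * ∑ j, p j ^ 2 + 2 * (κ ^ 2 * ∑ j, p j ^ 2) := by ring
    linarith
  set μ : ℝ := y ^ 2 * W / S2 with hμ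
  have hμS : μ * S2 = y ^ 2 * W := by rw [hμ]; field_simp
  have hμpos : 0 < μ := by positivity
  have key2 : ∀ s t : ℝ, μ * (s ^ 2 + t ^ 2) ≤ s ^ 2 * P + 2 * s * t * T + t ^ 2 * Q := by
    intro s t
    have h := key s t
    have h2 : y ^ 2 * ((s ^ 2 + t ^ 2) * W) = S2 * (μ * (s ^ 2 + t ^ 2)) := by
      calc y ^ 2 * ((s ^ 2 + t ^ 2) * W) = (y ^ 2 * W) * (s ^ 2 + t ^ 2) := by ring
        _ = (μ * S2) * (s ^ 2 + t ^ 2) := by rw [hμS]
        _ = _ := by ring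
    rw [h2] at h
    exact le_of_mul_le_mul_left h hS2pos
  have hPμ : μ ≤ P := by have := key2 1 0; linarith
  have hQμ : μ ≤ Q := by have := key2 0 1; linarith
  have hdisc : T ^ 2 ≤ (P - μ) * (Q - μ) := by
    have h : ∀ s : ℝ, 0 ≤ (P - μ) * (s * s) + (2 * T) * s + (Q - μ) := by
      intro s
      have h1 := key2 s 1
      have h2 : (P - μ) * (s * s) + (2 * T) * s + (Q - μ) =
        (s ^ 2 * P + 2 * s * 1 * T + 1 ^ 2 * Q) - μ * (s ^ 2 + 1 ^ 2) := by ring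
      linarith
    have h2 := discrim_le_zero h
    unfold discrim at h2
    have h3 : (2 * T) ^ 2 - 4 * (P - μ) * (Q - μ) = 4 * (T ^ 2 - (P - μ) * (Q - μ)) := by ring
    linarith
  have hDlow : μ * (P + Q) / 2 ≤ D := by
    rw [hD]
    have h1 : (P - μ) * (Q - μ) = P * Q - μ * (P + Q) + μ * μ := by ring
    have h2 : μ * μ ≤ μ * ((P + Q) / 2) := mul_le_mul_of_nonneg_left (by linarith) hμpos.le
    linarith
  have hDlow2 : y ^ 2 * W * (1 + W) / (2 * S2) ≤ D := by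
    rw [← hPQ]
    calc y ^ 2 * W * (P + Q) / (2 * S2) = μ * (P + Q) / 2 := by
          rw [← hμS]; field_simp
      _ ≤ D := hDlow
  have hDpos : 0 < D := by
    refine lt_of_lt_of_le ?_ hDlow2
    positivity
  refine ⟨hDpos, ?_⟩
  set L : ℝ := |y| + 2 * |x| + 2 * κ with hL
  have hypos : 0 < |y| := abs_pos.mpr hy
  have hLpos : 0 < L := by positivity
  have hS2L : S2 ≤ L ^ 2 := by
    rw [hS2, hL]
    have h1 : y ^ 2 = |y| ^ 2 := (sq_abs y).symm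
    have h2 : x ^ 2 = |x| ^ 2 := (sq_abs x).symm
    rw [h1, h2]
    have h3 := abs_nonneg x
    have e1 := mul_nonneg hypos.le h3
    have e2 := mul_nonneg hypos.le hκ
    have e3 := mul_nonneg h3 hκ
    have e4 := sq_nonneg κ
    have e5 := sq_nonneg |x|
    have e6 : (|y| + 2 * |x| + 2 * κ) ^ 2 = |y| ^ 2 + 4 * |x| ^ 2 + 4 * κ ^ 2 +
      4 * (|y| * |x|) + 4 * (|y| * κ) + 8 * (|x| * κ) := by ring
    linarith
  have hfin : ((1 + W) * |y|) ^ 2 ≤ (2 * L) ^ 2 * D := by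
    have h1 : ((1 + W) * |y|) ^ 2 = (1 + W) ^ 2 * y ^ 2 := by rw [mul_pow, sq_abs]
    rw [h1]
    have h2 : y ^ 2 * W * (1 + W) ≤ 2 * S2 * D := by
      rw [div_le_iff₀ (by positivity)] at hDlow2
      linarith
    have h3 : (1 + W) ^ 2 * y ^ 2 ≤ 2 * (y ^ 2 * W * (1 + W)) := by
      have : (1 + W) * ((1 + W) * y ^ 2) ≤ (2 * W) * ((1 + W) * y ^ 2) :=
        mul_le_mul_of_nonneg_right (by linarith) (by positivity)
      linarith
    have h4 : S2 * D ≤ L ^ 2 * D := mul_le_mul_of_nonneg_right hS2L hDpos.le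
    calc (1 + W) ^ 2 * y ^ 2 ≤ 2 * (y ^ 2 * W * (1 + W)) := h3
      _ ≤ 2 * (2 * S2 * D) := by linarith
      _ = 4 * (S2 * D) := by ring
      _ ≤ 4 * (L ^ 2 * D) := by linarith
      _ = (2 * L) ^ 2 * D := by ring
  calc (1 + W) * |y| = √(((1 + W) * |y|) ^ 2) := (Real.sqrt_sq (by positivity)).symm
    _ ≤ √((2 * L) ^ 2 * D) := Real.sqrt_le_sqrt hfin
    _ = 2 * L * √D := by rw [Real.sqrt_mul (by positivity), Real.sqrt_sq (by positivity)]

end Pool.Agent.Work.MP_ceabe6_pr
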