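import Mathlib

/-!
# Gaussian preliminaries
-/

namespace Pool.Agent.Work.MP_ceabe6_pr

open MeasureTheory ProbabilityTheory
open scoped NNReal ENNReal

/-- law of a vector of independent centred Gaussians of variance `v` -/
noncomputable abbrev gpi (ι : Type*) [Fintype ι] (v : ℝ≥0) : Measure (ι → ℝ) :=
  Measure.pi (fun _ : ι => gaussianReal 0 v)

variable {ι : Type*} [Fintype ι] {v : ℝ≥0}

lemma map_eval_gpi (i : ι) : (gpi ι v).map (fun g => g i) = gaussianReal 0 v :=
  (measurePreserving_eval (fun _ : ι => gaussianReal 0 v) i).map_eq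

lemma hasGaussianLaw_eval (i : ι) : HasGaussianLaw (fun g : ι → ℝ => g i) (gpi ι v) where
  isGaussian_map := by
    rw [map_eval_gpi]; infer_instance

lemma hasGaussianLaw_gpi : HasGaussianLaw (fun g : ι → ℝ => g) (gpi ι v) :=
  iIndepFun.hasGaussianLaw (X := fun (i : ι) (g : ι → ℝ) => g i) (fun i => hasGaussianLaw_eval i)
    (iIndepFun_pi (X := fun (_ : ι) (x : ℝ) => x) (fun _ => aemeasurable_id))

lemma memLp_eval (i : ι) : MemLp (fun g : ι → ℝ => g i) 2 (gpi ι v) :=
  (hasGaussianLaw_eval i).memLp_two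

lemma cov_eval (i j : ι) (hij : i ≠ j) :
    cov[fun g : ι → ℝ => g i, fun g : ι → ℝ => g j; gpi ι v] = 0 := by
  have h : iIndepFun (fun (i : ι) (g : ι → ℝ) => g i) (gpi ι v) :=
    iIndepFun_pi (X := fun (_ : ι) (x : ℝ) => x) (fun _ => aemeasurable_id)
  exact (h.indepFun hij).covariance_eq_zero (memLp_eval i) (memLp_eval j)

lemma cov_eval_self (i : ι) :
    cov[fun g : ι → ℝ => g i, fun g : ι → ℝ => g i; gpi ι v] = v := by
  rw [covariance_self (measurable_pi_apply i).aemeasurable]
  have h := variance_map (X := fun x : ℝ => x) (Y := fun g : ι → ℝ => g i) (μ := gpi ι v)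
    (by fun_prop) (measurable_pi_apply i).aemeasurable
  rw [map_eval_gpi, variance_fun_id_gaussianReal] at h
  rw [h]
  rfl

lemma cov_lin (a b : ι → ℝ) :
    cov[fun g : ι → ℝ => ∑ i, a i * g i, fun g : ι → ℝ => ∑ i, b i * g i; gpi ι v] =
      v * ∑ i, a i * b i := by
  classical
  rw [covariance_fun_sum_fun_sum (fun i => (memLp_eval i).const_mul _)
    (fun i => (memLp_eval i).const_mul _), Finset.mul_sum]
  apply Finset.sum_congr rfl
  intro i _
  rw [Finset.sum_eq_single i]
  · rw [covariance_const_mul_left, covariance_const_mul_right, cov_eval_self]; ring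
  · intro j _ hj
    rw [covariance_const_mul_left, covariance_const_mul_right, cov_eval i j hj.symm]; ring
  · intro h; exact absurd (Finset.mem_univ i) h

/-- the linear functional `g ↦ ∑ a i * g i` -/
noncomputable def linF (a : ι → ℝ) : (ι → ℝ) →L[ℝ] ℝ :=
  ∑ i, a i • (ContinuousLinearMap.proj i : (ι → ℝ) →L[ℝ] ℝ)

lemma linF_apply (a g : ι → ℝ) : linF a g = ∑ i, a i * g i := by
  simp [linF]

lemma measurable_lin (a : ι → ℝ) : Measurable (fun g : ι → ℝ => ∑ i, a i * g i) :=
  Finset.measurable_sum _ (fun i _ => measurable_const.mul (measurable_pi_apply i))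

lemma hasGaussianLaw_lin (a : ι → ℝ) :
    HasGaussianLaw (fun g : ι → ℝ => ∑ i, a i * g i) (gpi ι v) := by
  have := (hasGaussianLaw_gpi (ι := ι) (v := v)).map_fun (linF a)
  simpa only [linF_apply] using this

lemma integral_lin (a : ι → ℝ) : ∫ g, (∑ i, a i * g i) ∂(gpi ι v) = 0 := by
  rw [integral_finsetSum]
  · apply Finset.sum_eq_zero
    intro i _
    rw [integral_const_mul]
    have : ∫ g : ι → ℝ, g i ∂(gpi ι v) = 0 := by
      rw [integral_eval]; simp
    rw [this, mul_zero]
  · intro i _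
    exact ((memLp_eval i).integrable (by norm_num)).const_mul _

lemma map_lin (a : ι → ℝ) :
    (gpi ι v).map (fun g => ∑ i, a i * g i) =
      gaussianReal 0 (Real.toNNReal (v * ∑ i, a i ^ 2)) := by
  have h := (hasGaussianLaw_lin (v := v) a).map_eq_gaussianReal
  rw [h, integral_lin]
  congr 1
  have h2 := cov_lin (v := v) a a
  rw [covariance_self (measurable_lin a).aemeasurable] at h2
  rw [h2]
  congr 2
  apply Finset.sum_congr rfl
  intro i _
  ring

lemma indep_lin (a b : ι → ℝ) (hab : ∑ i, a i * b i = 0) :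
    IndepFun (fun g : ι → ℝ => ∑ i, a i * g i) (fun g : ι → ℝ => ∑ i, b i * g i) (gpi ι v) := by
  apply HasGaussianLaw.indepFun_of_covariance_eq_zero
  · have := (hasGaussianLaw_gpi (ι := ι) (v := v)).map_fun ((linF a).prod (linF b))
    simpa only [ContinuousLinearMap.prod_apply, linF_apply] using this
  · rw [cov_lin, hab, mul_zero]

/-- one-dimensional anticoncentration -/
lemma gaussian_interval (v : ℝ≥0) (hv : v ≠ 0) (c ρ : ℝ) :
    (gaussianReal 0 v) {x | |c - x| ≤ ρ} ≤
      ENNReal.ofReal (2 * ρ * (Real.sqrt (2 * Real.pi * v))⁻¹) := by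
  rw [gaussianReal_apply _ hv]
  have hset : {x : ℝ | |c - x| ≤ ρ} = Set.Icc (c - ρ) (c + ρ) := by
    ext x
    rw [Set.mem_ofPred_eq, Set.mem_Icc, abs_le]
    constructor
    · rintro ⟨h1, h2⟩; constructor <;> linarith
    · rintro ⟨h1, h2⟩; constructor <;> linarith
  rw [hset]
  calc ∫⁻ x in Set.Icc (c - ρ) (c + ρ), gaussianPDF 0 v x
      ≤ ∫⁻ _x in Set.Icc (c - ρ) (c + ρ), ENNReal.ofReal ((Real.sqrt (2 * Real.pi * v))⁻¹) := by
        apply lintegral_mono
        intro x
        unfold gaussianPDF gaussianPDFReal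
        apply ENNReal.ofReal_le_ofReal
        have h1 : Real.exp (-(x - 0) ^ 2 / (2 * v)) ≤ 1 := by
          rw [Real.exp_le_one_iff]
          apply div_nonpos_of_nonpos_of_nonneg
          · nlinarith [sq_nonneg (x - 0)]
          · positivity
        calc (Real.sqrt (2 * Real.pi * v))⁻¹ * Real.exp (-(x - 0) ^ 2 / (2 * v))
            ≤ (Real.sqrt (2 * Real.pi * v))⁻¹ * 1 := by gcongr
          _ = _ := mul_one _
    _ = ENNReal.ofReal ((Real.sqrt (2 * Real.pi * v))⁻¹) * ENNReal.ofReal (2 * ρ) := by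
        rw [setLIntegral_const, Real.volume_Icc]
        congr 2
        ring
    _ = ENNReal.ofReal (2 * ρ * (Real.sqrt (2 * Real.pi * v))⁻¹) := by
        rw [← ENNReal.ofReal_mul (by positivity)]
        congr 1
        ring

/-- one-dimensional anticoncentration away from the origin -/
lemma gaussian_interval_far (v : ℝ≥0) (hv : v ≠ 0) (c ρ l : ℝ) (hl : 0 < l) (hc : l + ρ ≤ |c|) :
    (gaussianReal 0 v) {x | |c - x| ≤ ρ} ≤ ENNReal.ofReal (2 * ρ * l⁻¹) := by
  have hvpos : (0 : ℝ) < v := by positivity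
  rw [gaussianReal_apply _ hv]
  have hset : {x : ℝ | |c - x| ≤ ρ} = Set.Icc (c - ρ) (c + ρ) := by
    ext x
    rw [Set.mem_ofPred_eq, Set.mem_Icc, abs_le]
    constructor
    · rintro ⟨h1, h2⟩; constructor <;> linarith
    · rintro ⟨h1, h2⟩; constructor <;> linarith
  rw [hset]
  calc ∫⁻ x in Set.Icc (c - ρ) (c + ρ), gaussianPDF 0 v x
      ≤ ∫⁻ _x in Set.Icc (c - ρ) (c + ρ), ENNReal.ofReal (l⁻¹) := by
        apply setLIntegral_mono' measurableSet_Icc
        intro x hx
        unfold gaussianPDF gaussianPDFReal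
        apply ENNReal.ofReal_le_ofReal
        have hx' : |c - x| ≤ ρ := by rw [← hset] at hx; exact hx
        have hxl : l ≤ |x| := by
          have : |c| ≤ |c - x| + |x| := by
            calc |c| = |(c - x) + x| := by ring_nf
              _ ≤ _ := abs_add_le _ _
          linarith
        have h1 : l ≤ Real.sqrt (2 * Real.pi * v) * Real.exp ((x - 0) ^ 2 / (2 * v)) := by
          apply le_of_sq_le_sq _ (by positivity)
          rw [mul_pow, Real.sq_sqrt (by positivity), ← Real.exp_nat_mul]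
          have h2 : x ^ 2 / v ≤ Real.exp (((2 : ℕ) : ℝ) * ((x - 0) ^ 2 / (2 * v))) := by
            have h3 : ((2 : ℕ) : ℝ) * ((x - 0) ^ 2 / (2 * v)) = x ^ 2 / v := by
              push_cast
              field_simp
              ring
            rw [h3]
            linarith [Real.add_one_le_exp (x ^ 2 / v)]
          have h4 : l ^ 2 ≤ x ^ 2 := by
            rw [← sq_abs x]
            exact pow_le_pow_left₀ hl.le hxl 2
          calc l ^ 2 ≤ x ^ 2 := h4
            _ ≤ 2 * Real.pi * x ^ 2 := by nlinarith [Real.pi_gt_three, sq_nonneg x]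
            _ = 2 * Real.pi * v * (x ^ 2 / v) := by field_simp
            _ ≤ _ := by gcongr
        have h5 : (Real.sqrt (2 * Real.pi * v))⁻¹ * Real.exp (-(x - 0) ^ 2 / (2 * v)) =
            (Real.sqrt (2 * Real.pi * v) * Real.exp ((x - 0) ^ 2 / (2 * v)))⁻¹ := by
          rw [mul_inv, ← Real.exp_neg]
          congr 2
          ring
        rw [h5]
        exact inv_anti₀ hl h1
    _ = ENNReal.ofReal (l⁻¹) * ENNReal.ofReal (2 * ρ) := by
        rw [setLIntegral_const, Real.volume_Icc]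
        congr 2
        ring
    _ = ENNReal.ofReal (2 * ρ * l⁻¹) := by
        rw [← ENNReal.ofReal_mul (by positivity)]
        congr 1
        ring

/-- two-dimensional anticoncentration for a pair of linear functionals, split form -/
theorem gaussian_two' (hv : v ≠ 0) (a b : ι → ℝ) (D : ℝ) (hD : 0 < D)
    (hDd : D = (∑ i, a i ^ 2) * (∑ i, b i ^ 2) - (∑ i, a i * b i) ^ 2) (c₁ c₂ ρ : ℝ) :
    (gpi ι v) {g | |c₁ - ∑ i, a i * g i| ≤ ρ ∧ |c₂ - ∑ i, b i * g i| ≤ ρ} ≤
      ENNReal.ofReal (2 * ρ * (Real.sqrt (2 * Real.pi * (v * (D / ∑ i, b i ^ 2))))⁻¹) *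
          (gaussianReal 0 (Real.toNNReal (v * ∑ i, b i ^ 2))) {x | |c₂ - x| ≤ ρ} := by
  have hvpos : (0 : ℝ) < v := by positivity
  have hb0 : 0 ≤ ∑ i, b i ^ 2 := Finset.sum_nonneg (fun i _ => sq_nonneg _)
  have ha0 : 0 ≤ ∑ i, a i ^ 2 := Finset.sum_nonneg (fun i _ => sq_nonneg _)
  have hb : 0 < ∑ i, b i ^ 2 := by
    rcases hb0.lt_or_eq with h | h
    · exact h
    · rw [← h] at hDd
      nlinarith [sq_nonneg (∑ i, a i * b i)]
  set B := ∑ i, b i ^ 2 with hB
  set t := (∑ i, a i * b i) / B with ht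
  set a' : ι → ℝ := fun i => a i - t * b i with ha'
  have horth : ∑ i, b i * a' i = 0 := by
    have : ∑ i, b i * a' i = ∑ i, a i * b i - t * B := by
      rw [hB, Finset.mul_sum, ← Finset.sum_sub_distrib]
      apply Finset.sum_congr rfl
      intro i _
      simp only [ha']; ring
    rw [this, ht, div_mul_cancel₀ _ hb.ne', sub_self]
  have hA' : (∑ i, a' i ^ 2) * B = D := by
    have h1 : ∑ i, a' i ^ 2 = ∑ i, a i ^ 2 - 2 * t * ∑ i, a i * b i + t ^ 2 * B := by
      rw [hB, Finset.mul_sum, Finset.mul_sum, ← Finset.sum_sub_distrib, ← Finset.sum_add_distrib]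
      apply Finset.sum_congr rfl
      intro i _
      simp only [ha']; ring
    rw [h1, ht, hDd]
    field_simp
    ring
  set A' := ∑ i, a' i ^ 2 with hA'd
  have hA'pos : 0 < A' := by
    have h0 : 0 ≤ A' := Finset.sum_nonneg (fun i _ => sq_nonneg _)
    rcases h0.lt_or_eq with h | h
    · exact h
    · rw [← h, zero_mul] at hA'
      linarith
  have hind := indep_lin (v := v) b a' horth
  have hmap := (indepFun_iff_map_prod_eq_prod_map_map (measurable_lin b).aemeasurable
    (measurable_lin a').aemeasurable).mp hind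
  rw [map_lin, map_lin] at hmap
  set vb : ℝ≥0 := Real.toNNReal (v * ∑ i, b i ^ 2) with hvb
  set va : ℝ≥0 := Real.toNNReal (v * ∑ i, a' i ^ 2) with hva
  have hvb' : (vb : ℝ) = v * B := by rw [hvb]; exact Real.coe_toNNReal _ (by positivity)
  have hva' : (va : ℝ) = v * A' := by rw [hva]; exact Real.coe_toNNReal _ (by positivity)
  have hvb0 : vb ≠ 0 := by
    rw [← NNReal.coe_ne_zero, hvb']; positivity
  have hva0 : va ≠ 0 := by
    rw [← NNReal.coe_ne_zero, hva']; positivity
  set S : Set (ℝ × ℝ) := {x | |c₂ - x.1| ≤ ρ ∧ |(c₁ - t * x.1) - x.2| ≤ ρ} with hS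
  have hSm : MeasurableSet S := by
    have h1 : Measurable (fun x : ℝ × ℝ => |c₂ - x.1|) := by fun_prop
    have h2 : Measurable (fun x : ℝ × ℝ => |(c₁ - t * x.1) - x.2|) := by fun_prop
    exact (measurableSet_le h1 measurable_const).inter (measurableSet_le h2 measurable_const)
  have hpre : {g : ι → ℝ | |c₁ - ∑ i, a i * g i| ≤ ρ ∧ |c₂ - ∑ i, b i * g i| ≤ ρ} =
      (fun g : ι → ℝ => (∑ i, b i * g i, ∑ i, a' i * g i)) ⁻¹' S := by
    ext g
    simp only [Set.mem_ofPred_eq, Set.mem_preimage, hS]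
    have : ∑ i, a i * g i = t * (∑ i, b i * g i) + ∑ i, a' i * g i := by
      rw [Finset.mul_sum, ← Finset.sum_add_distrib]
      apply Finset.sum_congr rfl
      intro i _
      simp only [ha']; ring
    rw [this]
    constructor
    · rintro ⟨h1, h2⟩
      refine ⟨h2, ?_⟩
      rwa [sub_sub]
    · rintro ⟨h1, h2⟩
      refine ⟨?_, h1⟩
      rwa [sub_sub] at h2
  rw [hpre, ← Measure.map_apply ((measurable_lin b).prodMk (measurable_lin a')) hSm, hmap,
    Measure.prod_apply hSm]
  have hDB : v * (D / B) = va := by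
    rw [hva', ← hA']
    field_simp
  calc ∫⁻ x, (gaussianReal 0 va) (Prod.mk x ⁻¹' S) ∂(gaussianReal 0 vb)
      ≤ ∫⁻ x, Set.indicator {x | |c₂ - x| ≤ ρ}
          (fun _ => ENNReal.ofReal (2 * ρ * (Real.sqrt (2 * Real.pi * va))⁻¹)) x
          ∂(gaussianReal 0 vb) := by
        apply lintegral_mono
        intro x
        by_cases hx : |c₂ - x| ≤ ρ
        · rw [Set.indicator_of_mem (show x ∈ {x | |c₂ - x| ≤ ρ} from hx)]
          refine le_trans (measure_mono ?_) (gaussian_interval va hva0 (c₁ - t * x) ρ)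
          intro w hw
          exact hw.2
        · rw [Set.indicator_of_notMem (show x ∉ {x | |c₂ - x| ≤ ρ} from hx)]
          have : Prod.mk x ⁻¹' S = ∅ := by
            ext w
            simp only [Set.mem_preimage, hS, Set.mem_ofPred_eq, Set.mem_empty_iff_false, iff_false]
            rintro ⟨h, _⟩
            exact hx h
          show (gaussianReal 0 va) (Prod.mk x ⁻¹' S) ≤ 0
          rw [this, measure_empty]
    _ = ENNReal.ofReal (2 * ρ * (Real.sqrt (2 * Real.pi * va))⁻¹) *
          (gaussianReal 0 vb) {x | |c₂ - x| ≤ ρ} := by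
        rw [lintegral_indicator_const]
        exact measurableSet_le (by fun_prop) measurable_const
    _ = _ := by rw [hDB]

/-- two-dimensional anticoncentration for a pair of linear functionals -/
theorem gaussian_two (hv : v ≠ 0) (a b : ι → ℝ) (D : ℝ) (hD : 0 < D)
    (hDd : D = (∑ i, a i ^ 2) * (∑ i, b i ^ 2) - (∑ i, a i * b i) ^ 2) (c₁ c₂ ρ : ℝ) (hρ : 0 ≤ ρ) :
    (gpi ι v) {g | |c₁ - ∑ i, a i * g i| ≤ ρ ∧ |c₂ - ∑ i, b i * g i| ≤ ρ} ≤
      ENNReal.ofReal (2 * ρ ^ 2 * (Real.pi * v * Real.sqrt D)⁻¹) := by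
  have hvpos : (0 : ℝ) < v := by positivity
  have hb0 : 0 ≤ ∑ i, b i ^ 2 := Finset.sum_nonneg (fun i _ => sq_nonneg _)
  have hb : 0 < ∑ i, b i ^ 2 := by
    rcases hb0.lt_or_eq with h | h
    · exact h
    · rw [← h] at hDd
      nlinarith [sq_nonneg (∑ i, a i * b i)]
  have h := gaussian_two' hv a b D hD hDd c₁ c₂ ρ
  set B := ∑ i, b i ^ 2 with hB
  set vb : ℝ≥0 := Real.toNNReal (v * B) with hvb
  have hvb' : (vb : ℝ) = v * B := by rw [hvb]; exact Real.coe_toNNReal _ (by positivity)
  have hvb0 : vb ≠ 0 := by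
    rw [← NNReal.coe_ne_zero, hvb']; positivity
  refine h.trans ?_
  calc ENNReal.ofReal (2 * ρ * (Real.sqrt (2 * Real.pi * (v * (D / B))))⁻¹) *
          (gaussianReal 0 vb) {x | |c₂ - x| ≤ ρ}
      ≤ ENNReal.ofReal (2 * ρ * (Real.sqrt (2 * Real.pi * (v * (D / B))))⁻¹) *
          ENNReal.ofReal (2 * ρ * (Real.sqrt (2 * Real.pi * vb))⁻¹) := by
        gcongr
        exact gaussian_interval vb hvb0 c₂ ρ
    _ = ENNReal.ofReal (2 * ρ ^ 2 * (Real.pi * v * Real.sqrt D)⁻¹) := by
        rw [← ENNReal.ofReal_mul (by positivity)]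
        congr 1
        have h1 : Real.sqrt (2 * Real.pi * (v * (D / B))) * Real.sqrt (2 * Real.pi * vb) =
            2 * Real.pi * v * Real.sqrt D := by
          rw [← Real.sqrt_mul (by positivity), hvb']
          have : 2 * Real.pi * (v * (D / B)) * (2 * Real.pi * (↑v * B)) =
              (2 * Real.pi * v) ^ 2 * D := by
            field_simp
          rw [this, Real.sqrt_mul (by positivity), Real.sqrt_sq (by positivity)]
        calc 2 * ρ * (Real.sqrt (2 * Real.pi * (v * (D / B))))⁻¹ *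
              (2 * ρ * (Real.sqrt (2 * Real.pi * vb))⁻¹)
            = 4 * ρ ^ 2 * (Real.sqrt (2 * Real.pi * (v * (D / B))) *
                Real.sqrt (2 * Real.pi * vb))⁻¹ := by
              rw [mul_inv]; ring
          _ = 4 * ρ ^ 2 * (2 * (Real.pi * v * Real.sqrt D))⁻¹ := by rw [h1]; ring_nf
          _ = _ := by rw [mul_inv]; ring

end Pool.Agent.Work.MP_ceabe6_pr
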