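import Pool.Agent.Work.MP_ceabe6_pr.OpNorm

/-!
# Invariance and decomposition of the Gaussian matrix law
-/

namespace Pool.Agent.Work.MP_ceabe6_pr

open MeasureTheory ProbabilityTheory
open scoped NNReal ENNReal

variable {m k n : ℕ} {v : ℝ≥0}

/-- a Gaussian vector is invariant under orthonormal families of functionals -/
lemma gpi_map_orth {ι κ : Type*} [Fintype ι] [Fintype κ] (a : κ → ι → ℝ)
    (h1 : ∀ k, ∑ i, a k i ^ 2 = 1) (h2 : ∀ k l, k ≠ l → ∑ i, a k i * a l i = 0) :
    (gpi ι v).map (fun g k => ∑ i, a k i * g i) = gpi κ v := by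
  have hg : HasGaussianLaw (fun (g : ι → ℝ) (k : κ) => ∑ i, a k i * g i) (gpi ι v) := by
    have := (hasGaussianLaw_gpi (ι := ι) (v := v)).map_fun
      (ContinuousLinearMap.pi (fun k => linF (a k)))
    have h3 : (fun g : ι → ℝ => (ContinuousLinearMap.pi (fun k => linF (a k))) g) =
        (fun (g : ι → ℝ) (k : κ) => ∑ i, a k i * g i) := by
      ext g k
      simp [linF_apply]
    rwa [h3] at this
  have hind : iIndepFun (fun (k : κ) (g : ι → ℝ) => ∑ i, a k i * g i) (gpi ι v) := by
    apply hg.iIndepFun_of_covariance_eq_zero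
    intro k l hkl
    rw [cov_lin, h2 k l hkl, mul_zero]
  have hmap := iIndepFun.map_fun_eq_pi_map (fun k => (measurable_lin (a k)).aemeasurable) hind
  rw [hmap]
  congr 1
  ext1 k
  rw [map_lin, h1 k]
  simp

lemma gmat_uncurry (m k : ℕ) (v : ℝ≥0) :
    (gmat m k v).map (fun R (p : Fin m × Fin k) => R p.1 p.2) = gpi (Fin m × Fin k) v := by
  symm
  apply Measure.pi_eq
  intro s hs
  have hmeas : Measurable (fun (R : Fin m → Fin k → ℝ) (p : Fin m × Fin k) => R p.1 p.2) :=
    measurable_pi_lambda _ (fun p => (measurable_pi_apply p.2).comp (measurable_pi_apply p.1))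
  rw [Measure.map_apply hmeas (MeasurableSet.univ_pi hs)]
  have hpre : (fun (R : Fin m → Fin k → ℝ) (p : Fin m × Fin k) => R p.1 p.2) ⁻¹'
      (Set.univ.pi s) = Set.univ.pi (fun i => Set.univ.pi (fun j => s (i, j))) := by
    ext R
    simp only [Set.mem_preimage, Set.mem_pi, Set.mem_univ, true_implies, Prod.forall]
  rw [hpre, Measure.pi_pi, Fintype.prod_prod_type]
  apply Finset.prod_congr rfl
  intro i _
  rw [Measure.pi_pi]

/-- conjugation `Q G Qᵀ` -/
def conjM (Q G : Fin n → Fin n → ℝ) : Fin n → Fin n → ℝ :=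
  fun i j => ∑ k, ∑ l, Q i k * G k l * Q j l

lemma measurable_entry (i : Fin m) (j : Fin k) :
    Measurable (fun G : Fin m → Fin k → ℝ => G i j) :=
  (measurable_pi_apply j).comp (measurable_pi_apply i)

lemma measurable_conjM (Q : Fin n → Fin n → ℝ) : Measurable (conjM Q) := by
  apply measurable_pi_lambda
  intro i
  apply measurable_pi_lambda
  intro j
  apply Finset.measurable_sum
  intro k _
  apply Finset.measurable_sum
  intro l _
  exact (measurable_const.mul (measurable_entry k l)).mul measurable_const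

lemma gmat_conj (Q : Fin n → Fin n → ℝ) (h1 : ∀ i, ∑ k, Q i k ^ 2 = 1)
    (h2 : ∀ i j, i ≠ j → ∑ k, Q i k * Q j k = 0) :
    (gmat n n v).map (conjM Q) = gmat n n v := by
  set U : (Fin n → Fin n → ℝ) → (Fin n × Fin n → ℝ) := fun R p => R p.1 p.2 with hU
  set W : (Fin n × Fin n → ℝ) → (Fin n → Fin n → ℝ) := fun f i j => f (i, j) with hW
  have hUm : Measurable U :=
    measurable_pi_lambda _ (fun p => (measurable_pi_apply p.2).comp (measurable_pi_apply p.1))
  have hWm : Measurable W :=
    measurable_pi_lambda _ (fun i => measurable_pi_lambda _ (fun j => measurable_pi_apply (i, j)))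
  have hWU : ∀ R, W (U R) = R := fun R => rfl
  set a : Fin n × Fin n → Fin n × Fin n → ℝ := fun p q => Q p.1 q.1 * Q p.2 q.2 with ha
  have hinner : ∀ p p', ∑ q, a p q * a p' q =
      (∑ k, Q p.1 k * Q p'.1 k) * (∑ l, Q p.2 l * Q p'.2 l) := by
    intro p p'
    rw [Fintype.sum_prod_type, Finset.sum_mul_sum]
    apply Finset.sum_congr rfl
    intro k _
    apply Finset.sum_congr rfl
    intro l _
    simp only [ha]
    ring
  have ha1 : ∀ p, ∑ q, a p q ^ 2 = 1 := by
    intro p
    have := hinner p p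
    simp only [← pow_two, h1, one_pow] at this
    exact this
  have ha2 : ∀ p p', p ≠ p' → ∑ q, a p q * a p' q = 0 := by
    intro p p' hp
    rw [hinner]
    by_cases h : p.1 = p'.1
    · have h' : p.2 ≠ p'.2 := fun h'' => hp (Prod.ext h h'')
      rw [h2 _ _ h', mul_zero]
    · rw [h2 _ _ h, zero_mul]
  have hL := gpi_map_orth (v := v) a ha1 ha2
  have hLm : Measurable (fun (g : Fin n × Fin n → ℝ) (p : Fin n × Fin n) => ∑ q, a p q * g q) :=
    measurable_pi_lambda _ (fun p => measurable_lin (a p))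
  have hcomm : conjM Q = W ∘ (fun (g : Fin n × Fin n → ℝ) (p : Fin n × Fin n) =>
      ∑ q, a p q * g q) ∘ U := by
    ext G i j
    simp only [Function.comp, hW, hU, conjM, ha, Fintype.sum_prod_type]
    apply Finset.sum_congr rfl
    intro k _
    apply Finset.sum_congr rfl
    intro l _
    ring
  have hUmap : (gmat n n v).map U = gpi (Fin n × Fin n) v := gmat_uncurry n n v
  calc (gmat n n v).map (conjM Q)
      = (((gmat n n v).map U).map (fun (g : Fin n × Fin n → ℝ) (p : Fin n × Fin n) =>
          ∑ q, a p q * g q)).map W := by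
        rw [hcomm, Measure.map_map hWm hLm, Measure.map_map (hWm.comp hLm) hUm]
        rfl
    _ = ((gmat n n v).map U).map W := by rw [hUmap, hL]
    _ = (gmat n n v).map (W ∘ U) := Measure.map_map hWm hUm
    _ = gmat n n v := by
        have : W ∘ U = id := by ext R; rfl
        rw [this, Measure.map_id]

/-- splitting off the first row -/
lemma gmat_succ_apply {S : Set (Fin (m + 1) → Fin k → ℝ)} (hS : MeasurableSet S) :
    gmat (m + 1) k v S =
      ∫⁻ R, gpi (Fin k) v {g | (Fin.cons g R : Fin (m + 1) → Fin k → ℝ) ∈ S}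
        ∂(gmat m k v) := by
  have hmp := (measurePreserving_piFinSuccAbove (fun _ : Fin (m + 1) => gpi (Fin k) v) 0).symm
  rw [← hmp.measure_preimage hS.nullMeasurableSet, Measure.prod_apply_symm
    ((MeasurableEquiv.measurable _) hS)]
  apply lintegral_congr
  intro R
  congr 1
  ext g
  simp only [MeasurableEquiv.piFinSuccAbove, Fin.insertNthEquiv_zero]
  rfl

lemma gpi_tail (k : ℕ) : (gpi (Fin (k + 1)) v).map (fun g (j : Fin k) => g j.succ) =
    gpi (Fin k) v := by
  have hmp := measurePreserving_piFinSuccAbove (fun _ : Fin (k + 1) => gaussianReal 0 v) 0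
  have h1 : (fun (g : Fin (k + 1) → ℝ) (j : Fin k) => g j.succ) =
      Prod.snd ∘ (MeasurableEquiv.piFinSuccAbove (fun _ : Fin (k + 1) => ℝ) 0) := by
    ext g j
    rfl
  rw [h1, ← Measure.map_map measurable_snd (MeasurableEquiv.measurable _), hmp.map_eq,
    Measure.map_snd_prod]
  simp

/-- marginal of the block without the first column -/
lemma gmat_tail (m k : ℕ) : (gmat m (k + 1) v).map (fun R (i : Fin m) (j : Fin k) => R i j.succ) =
    gmat m k v := by
  have hm : Measurable (fun (g : Fin (k + 1) → ℝ) (j : Fin k) => g j.succ) :=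
    measurable_pi_lambda _ (fun j => measurable_pi_apply _)
  have := Measure.pi_map_pi (μ := fun _ : Fin m => gpi (Fin (k + 1)) v)
    (f := fun _ g (j : Fin k) => g j.succ) (hμ := fun _ => by rw [gpi_tail]; infer_instance)
    (fun _ => hm.aemeasurable)
  rw [this]
  congr 1
  ext1 i
  exact gpi_tail k

/-- second moment of a standard Gaussian vector -/
lemma lint_norm_sq (n : ℕ) : ∫⁻ r, ENNReal.ofReal (∑ i, r i ^ 2) ∂(gpi (Fin n) 1) = n := by
  have h1 : ∀ r : Fin n → ℝ, ENNReal.ofReal (∑ i, r i ^ 2) = ∑ i, ENNReal.ofReal (r i ^ 2) :=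
    fun r => ENNReal.ofReal_sum_of_nonneg (fun i _ => sq_nonneg _)
  simp_rw [h1]
  rw [lintegral_finsetSum]
  · have h2 : ∀ i : Fin n, ∫⁻ r, ENNReal.ofReal (r i ^ 2) ∂(gpi (Fin n) 1) = 1 := by
      intro i
      have hmp := measurePreserving_eval (fun _ : Fin n => gaussianReal 0 1) i
      have h3 := hmp.lintegral_comp (f := fun x : ℝ => ENNReal.ofReal (x ^ 2)) (by fun_prop)
      have h4 : ∫⁻ x, ENNReal.ofReal (x ^ 2) ∂(gaussianReal 0 1) = 1 := by
        rw [← ofReal_integral_eq_lintegral_ofReal]
        · have hv := variance_fun_id_gaussianReal (μ := 0) (v := 1)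
          rw [variance_of_integral_eq_zero (by fun_prop) (by simp [integral_id_gaussianReal])] at hv
          rw [hv]
          simp
        · exact (memLp_id_gaussianReal' 2 (by norm_num)).integrable_sq
        · exact ae_of_all _ (fun x => sq_nonneg x)
      rw [h4] at h3
      exact h3
    rw [Finset.sum_congr rfl (fun i _ => h2 i)]
    simp
  · intro i _
    exact ENNReal.measurable_ofReal.comp ((measurable_pi_apply i).pow_const 2)

end Pool.Agent.Work.MP_ceabe6_pr
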