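import Pool.Agent.Work.MP_ceabe6_pr.SST

/-!
# The main bound
-/

namespace Pool.Agent.Work.MP_ceabe6_pr

open MeasureTheory ProbabilityTheory
open scoped NNReal ENNReal

variable {m k n : ℕ} {v : ℝ≥0}

lemma opNorm_eq (A : Matrix (Fin n) (Fin n) ℝ) : opNorm A = opn (fun i j => A i j) :=
  Matrix.l2_opNorm_def A

lemma opNorm_nonneg (A : Matrix (Fin n) (Fin n) ℝ) : 0 ≤ opNorm A := by
  rw [opNorm_eq]; exact opn_nonneg _

lemma opNorm_bound (A : Matrix (Fin n) (Fin n) ℝ) (p : Fin n → ℝ) :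
    ∑ i, (∑ j, A i j * p j) ^ 2 ≤ opNorm A ^ 2 * ∑ j, p j ^ 2 := by
  rw [opNorm_eq]
  exact opn_bound (fun i j => A i j) p

lemma ginibre_eq (n : ℕ) : ginibre n = gmat n n ((n : ℝ≥0)⁻¹) := rfl

theorem main_bound (m : ℕ) (A : Matrix (Fin (m + 1)) (Fin (m + 1)) ℝ) (ε : ℝ) (hε : 0 < ε)
    (z : ℂ) (hz : z.im ≠ 0) :
    ginibre (m + 1) {G | leastSV (shifted z A G) ≤ ε} ≤
      ENNReal.ofReal (2 * (276 + 11 * opNorm A + 2 * |z.im| + 4 * |z.re|) / kap.toReal *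
        (m + 1) ^ 2 * ε ^ 2 / |z.im|) := by
  have hypos : 0 < |z.im| := abs_pos.mpr hz
  set N := opNorm A with hN
  have hN0 : 0 ≤ N := opNorm_nonneg A
  set K : ℝ := 276 + 11 * N + 2 * |z.im| + 4 * |z.re| with hK
  have hK0 : 0 ≤ K := by positivity
  set τ : ℝ := √2 * ε with hτ
  have hτ0 : 0 ≤ τ := by positivity
  have hτ2 : τ ^ 2 = 2 * ε ^ 2 := by rw [hτ, mul_pow, Real.sq_sqrt (by norm_num)]
  set A' : Fin (m + 1) → Fin (m + 1) → ℝ := fun i j => A i j with hA'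
  set S : Set ((Fin (m + 1) → Fin (m + 1) → ℝ) × (Fin (m + 1) → ℝ)) :=
    {q | SE z τ (A' + q.1) q.2} with hS
  have hSm : MeasurableSet S := by
    apply IsClosed.measurableSet
    exact (isClosed_SE z τ).preimage (show Continuous (fun q : (Fin (m + 1) → Fin (m + 1) → ℝ) ×
      (Fin (m + 1) → ℝ) => (A' + q.1, q.2)) by fun_prop)
  set μ := ginibre (m + 1) with hμ
  have hμ' : μ = gmat (m + 1) (m + 1) (((m + 1 : ℕ) : ℝ≥0)⁻¹) := rfl
  have : IsProbabilityMeasure μ := by rw [hμ']; infer_instance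
  set γ := gpi (Fin (m + 1)) 1 with hγ
  have hsub : {G | leastSV (shifted z A G) ≤ ε} ⊆ {G | kap ≤ γ (Prod.mk G ⁻¹' S)} := by
    intro G hG
    obtain ⟨u, hu1, hu2⟩ := sst_det (by omega) z A G ε hG
    refine (kap_complex u hu1).trans (measure_mono ?_)
    intro r hr
    exact hu2 r hr
  have hint : ∫⁻ G, γ (Prod.mk G ⁻¹' S) ∂μ ≤
      ENNReal.ofReal (τ ^ 2 * (m + 1) / |z.im| * K) * ((m + 1 : ℕ) : ℝ≥0∞) := by
    rw [← Measure.prod_apply hSm, Measure.prod_apply_symm hSm]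
    calc ∫⁻ r, μ ((fun G => (G, r)) ⁻¹' S) ∂γ
        ≤ ∫⁻ r, ENNReal.ofReal (τ ^ 2 * (m + 1) / |z.im| * K) * ENNReal.ofReal (∑ k, r k ^ 2) ∂γ := by
          apply lintegral_mono
          intro r
          exact SE_bound_dir m z hz N hN0 A' (opNorm_bound A) τ hτ0 r
      _ = ENNReal.ofReal (τ ^ 2 * (m + 1) / |z.im| * K) * ((m + 1 : ℕ) : ℝ≥0∞) := by
          rw [lintegral_const_mul, lint_norm_sq]
          exact ENNReal.measurable_ofReal.comp
            (Finset.measurable_sum _ (fun i _ => (measurable_pi_apply i).pow_const 2))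
  have hkr : 0 < kap.toReal := ENNReal.toReal_pos kap_ne_zero kap_ne_top
  calc μ {G | leastSV (shifted z A G) ≤ ε} ≤ μ {G | kap ≤ γ (Prod.mk G ⁻¹' S)} :=
        measure_mono hsub
    _ ≤ (∫⁻ G, γ (Prod.mk G ⁻¹' S) ∂μ) / kap :=
        meas_ge_le_lintegral_div (measurable_measure_prodMk_left hSm).aemeasurable
          kap_ne_zero kap_ne_top
    _ ≤ (ENNReal.ofReal (τ ^ 2 * (m + 1) / |z.im| * K) * ((m + 1 : ℕ) : ℝ≥0∞)) / kap := by
        gcongr
    _ = ENNReal.ofReal (2 * K / kap.toReal * (m + 1) ^ 2 * ε ^ 2 / |z.im|) := by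
        have h1 : kap = ENNReal.ofReal kap.toReal := (ENNReal.ofReal_toReal kap_ne_top).symm
        have h2 : ((m + 1 : ℕ) : ℝ≥0∞) = ENNReal.ofReal ((m : ℝ) + 1) := by
          rw [ENNReal.ofReal_add (by positivity) (by norm_num), ENNReal.ofReal_natCast]
          simp
        conv_lhs => rw [h1, h2]
        rw [← ENNReal.ofReal_mul (by positivity), ← ENNReal.ofReal_div_of_pos hkr]
        congr 1
        rw [hτ2]
        field_simp

/-- explicit form with an absolute constant -/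
theorem main_real : ∃ K : ℝ, 0 < K ∧ ∀ (n : ℕ), 1 ≤ n → ∀ (A : Matrix (Fin n) (Fin n) ℝ) (ε : ℝ),
    0 < ε → ∀ z : ℂ, z.im ≠ 0 →
    (ginibre n).real {G | leastSV (shifted z A G) ≤ ε} ≤
      K * (1 + ‖z‖ + opNorm A) * (n ^ 2 * ε ^ 2 / |z.im|) := by
  have hkr : 0 < kap.toReal := ENNReal.toReal_pos kap_ne_zero kap_ne_top
  refine ⟨2 * 276 / kap.toReal, by positivity, ?_⟩
  intro n hn A ε hε z hz
  obtain ⟨m, rfl⟩ : ∃ m, n = m + 1 := ⟨n - 1, by omega⟩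
  have h := main_bound m A ε hε z hz
  have hypos : 0 < |z.im| := abs_pos.mpr hz
  have hN0 : 0 ≤ opNorm A := opNorm_nonneg A
  rw [measureReal_def]
  refine ENNReal.toReal_le_of_le_ofReal (by positivity) (h.trans (ENNReal.ofReal_le_ofReal ?_))
  have h1 : |z.im| ≤ ‖z‖ := Complex.abs_im_le_norm z
  have h2 : |z.re| ≤ ‖z‖ := Complex.abs_re_le_norm z
  have h3 : 276 + 11 * opNorm A + 2 * |z.im| + 4 * |z.re| ≤ 276 * (1 + ‖z‖ + opNorm A) := by
    nlinarith [norm_nonneg z]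
  have h4 : 2 * (276 + 11 * opNorm A + 2 * |z.im| + 4 * |z.re|) / kap.toReal *
      ((m : ℝ) + 1) ^ 2 * ε ^ 2 / |z.im| =
      (276 + 11 * opNorm A + 2 * |z.im| + 4 * |z.re|) *
        (2 / kap.toReal * (((m : ℝ) + 1) ^ 2 * ε ^ 2 / |z.im|)) := by ring
  have h5 : 2 * 276 / kap.toReal * (1 + ‖z‖ + opNorm A) *
      (((m + 1 : ℕ) : ℝ) ^ 2 * ε ^ 2 / |z.im|) = (276 * (1 + ‖z‖ + opNorm A)) *
        (2 / kap.toReal * (((m : ℝ) + 1) ^ 2 * ε ^ 2 / |z.im|)) := by push_cast; ring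
  rw [h4, h5]
  apply mul_le_mul_of_nonneg_right h3 (by positivity)

end Pool.Agent.Work.MP_ceabe6_pr
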