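import Pool.Agent.Work.MP_ceabe6_pr.Cond

/-!
# Almost sure injectivity, and the unconditional bound for the event `SE · e₀`
-/

namespace Pool.Agent.Work.MP_ceabe6_pr

open MeasureTheory ProbabilityTheory
open scoped NNReal ENNReal

variable {m k n : ℕ} {v : ℝ≥0}

/-- `z - B` is injective -/
def Inj (z : ℂ) (B : Fin n → Fin n → ℝ) : Prop :=
  ∀ u : Fin n → ℂ, (∀ i, z * u i - ∑ j, (B i j : ℂ) * u j = 0) → u = 0

lemma not_Inj_SE {z : ℂ} {B : Fin n → Fin n → ℝ} {r : Fin n → ℝ} (h : ¬ Inj z B) :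
    SE z 0 B r := by
  unfold Inj at h
  push Not at h
  obtain ⟨u, h1, h2⟩ := h
  exact ⟨u, h2, 0, fun i => by rw [h1 i]; simp, by simp⟩

lemma row_le {n m : ℕ} (A : Fin n → Fin m → ℝ) (N : ℝ)
    (hA : ∀ p : Fin m → ℝ, ∑ i, (∑ j, A i j * p j) ^ 2 ≤ N ^ 2 * ∑ j, p j ^ 2) (i : Fin n)
    (p : Fin m → ℝ) : (∑ j, A i j * p j) ^ 2 ≤ N ^ 2 * ∑ j, p j ^ 2 :=
  (Finset.single_le_sum (f := fun i => (∑ j, A i j * p j) ^ 2) (fun _ _ => sq_nonneg _)
    (Finset.mem_univ i)).trans (hA p)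

lemma measurable_section (z : ℂ) (ρ : ℝ) (A : Fin (m + 1) → Fin (m + 1) → ℝ) :
    Measurable (fun R : Fin m → Fin (m + 1) → ℝ => gpi (Fin (m + 1)) v
      {g | (Fin.cons g R : Fin (m + 1) → Fin (m + 1) → ℝ) ∈
        {G | SE z ρ (A + G) (Pi.single 0 1)}}) := by
  have hS := measurableSet_SE z ρ (Pi.single 0 1) A
  have hcons : Measurable (fun q : (Fin m → Fin (m + 1) → ℝ) × (Fin (m + 1) → ℝ) =>
      (Fin.cons q.2 q.1 : Fin (m + 1) → Fin (m + 1) → ℝ)) := by
    apply measurable_pi_lambda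
    intro i
    refine Fin.cases ?_ (fun i => ?_) i
    · exact measurable_snd
    · exact (measurable_pi_apply i).comp measurable_fst
  exact measurable_measure_prodMk_left (hcons hS)

lemma section_eq (z : ℂ) (ρ : ℝ) (A : Fin (m + 1) → Fin (m + 1) → ℝ)
    (R : Fin m → Fin (m + 1) → ℝ) :
    {g | (Fin.cons g R : Fin (m + 1) → Fin (m + 1) → ℝ) ∈
      {G | SE z ρ (A + G) (Pi.single 0 1)}} =
    {g | SE z ρ (Fin.cons (A 0 + g) (fun i => A i.succ + R i) :
      Fin (m + 1) → Fin (m + 1) → ℝ) (Pi.single 0 1)} := by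
  ext g
  simp only [Set.mem_ofPred_eq]
  have : A + (Fin.cons g R : Fin (m + 1) → Fin (m + 1) → ℝ) =
      (Fin.cons (A 0 + g) (fun i => A i.succ + R i) :
        Fin (m + 1) → Fin (m + 1) → ℝ) := by
    ext i j
    refine Fin.cases ?_ (fun i => ?_) i <;> simp
  rw [this]

lemma low_bound (A : Fin (m + 1) → Fin (m + 1) → ℝ) (N : ℝ) (hN : 0 ≤ N)
    (hA : ∀ p : Fin (m + 1) → ℝ, ∑ i, (∑ j, A i j * p j) ^ 2 ≤ N ^ 2 * ∑ j, p j ^ 2)
    (R : Fin m → Fin (m + 1) → ℝ) (p : Fin (m + 1) → ℝ) :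
    ∑ i : Fin m, (∑ j, (A i.succ + R i) j * p j) ^ 2 ≤ (2 * N + 2 * opn R) ^ 2 * ∑ j, p j ^ 2 := by
  have h1 := hA p
  have h2 := opn_bound R p
  rw [Fin.sum_univ_succ] at h1
  have h3 : ∑ i : Fin m, (∑ j, (A i.succ + R i) j * p j) ^ 2 ≤
      2 * ∑ i : Fin m, (∑ j, A i.succ j * p j) ^ 2 + 2 * ∑ i : Fin m, (∑ j, R i j * p j) ^ 2 := by
    rw [Finset.mul_sum, Finset.mul_sum, ← Finset.sum_add_distrib]
    apply Finset.sum_le_sum
    intro i _
    have : ∑ j, (A i.succ + R i) j * p j = ∑ j, A i.succ j * p j + ∑ j, R i j * p j := by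
      rw [← Finset.sum_add_distrib]
      exact Finset.sum_congr rfl (fun j _ => by rw [Pi.add_apply]; ring)
    rw [this]
    nlinarith [sq_nonneg (∑ j, A i.succ j * p j - ∑ j, R i j * p j)]
  have h4 : 0 ≤ (∑ j, A 0 j * p j) ^ 2 := sq_nonneg _
  have h5 : 0 ≤ ∑ j, p j ^ 2 := Finset.sum_nonneg (fun j _ => sq_nonneg _)
  have h6 := opn_nonneg R
  have h7 : (2 * N ^ 2 + 2 * opn R ^ 2) * ∑ j, p j ^ 2 ≤
      (2 * N + 2 * opn R) ^ 2 * ∑ j, p j ^ 2 := by
    apply mul_le_mul_of_nonneg_right _ h5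
    nlinarith [mul_nonneg hN h6, sq_nonneg N, sq_nonneg (opn R)]
  linarith

/-- almost sure injectivity of `z - A - G` -/
theorem ae_inj (hv : v ≠ 0) (hv1 : (v : ℝ) ≤ 1) (z : ℂ) (hz : z.im ≠ 0) :
    ∀ (n : ℕ) (A : Fin n → Fin n → ℝ), ∀ᵐ G ∂(gmat n n v), Inj z (A + G) := by
  intro n
  induction n with
  | zero =>
    intro A
    exact ae_of_all _ (fun G u _ => Subsingleton.elim _ _)
  | succ m ih =>
    intro A
    -- enough: the event `SE z 0 (A + G) e₀` is null
    have hnull : gmat (m + 1) (m + 1) v {G | SE z 0 (A + G) (Pi.single 0 1)} = 0 := by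
      rw [gmat_succ_apply (measurableSet_SE z 0 (Pi.single 0 1) A)]
      rw [lintegral_eq_zero_iff' (measurable_section z 0 A).aemeasurable]
      -- for almost every block
      have h1 : ∀ᵐ R ∂(gmat m (m + 1) v),
          Inj z (fun i j => A i.succ j.succ + R i j.succ) := by
        have h2 := ih (fun i j => A i.succ j.succ)
        rw [← gmat_tail m m] at h2
        have h3 := ae_of_ae_map (by
          apply Measurable.aemeasurable
          exact measurable_pi_lambda _ (fun i => measurable_pi_lambda _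
            (fun j => measurable_entry i j.succ))) h2
        exact h3
      filter_upwards [h1] with R hR
      have hA0 : ∀ p : Fin (m + 1) → ℝ, (∑ j, A 0 j * p j) ^ 2 ≤ (opn A) ^ 2 * ∑ j, p j ^ 2 :=
        row_le A (opn A) (opn_bound A) 0
      have hb := cond_bound hv hv1 z hz (opn A) (opn (fun i => A i.succ + R i)) 0
        (opn_nonneg _) (opn_nonneg _) le_rfl (A 0) hA0 (fun i => A i.succ + R i)
        (opn_bound _) (by
          intro u hu
          apply hR
          intro i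
          exact hu i)
      rw [← section_eq] at hb
      simp only [ne_eq, OfNat.ofNat_ne_zero, not_false_eq_true, zero_pow, zero_div, zero_mul,
        ENNReal.ofReal_zero, nonpos_iff_eq_zero] at hb
      exact hb
    rw [ae_iff]
    refine measure_mono_null ?_ hnull
    intro G hG
    exact not_Inj_SE hG

/-- the bound for the event `SE · e₀` -/
theorem SE_bound (m : ℕ) (z : ℂ) (hz : z.im ≠ 0) (N : ℝ) (hN : 0 ≤ N)
    (A : Fin (m + 1) → Fin (m + 1) → ℝ)
    (hA : ∀ p : Fin (m + 1) → ℝ, ∑ i, (∑ j, A i j * p j) ^ 2 ≤ N ^ 2 * ∑ j, p j ^ 2)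
    (ρ : ℝ) (hρ : 0 ≤ ρ) :
    gmat (m + 1) (m + 1) (((m + 1 : ℕ) : ℝ≥0)⁻¹) {G | SE z ρ (A + G) (Pi.single 0 1)} ≤
      ENNReal.ofReal (ρ ^ 2 * (m + 1) / |z.im| *
        (276 + 11 * N + 2 * |z.im| + 4 * |z.re|)) := by
  set v : ℝ≥0 := ((m + 1 : ℕ) : ℝ≥0)⁻¹ with hvd
  have hypos : 0 < |z.im| := abs_pos.mpr hz
  have hm0 : (0 : ℝ) < (m : ℝ) + 1 := by positivity
  have hv : v ≠ 0 := by
    rw [hvd, ne_eq, inv_eq_zero]; exact_mod_cast (Nat.succ_ne_zero m)
  have hvr : (v : ℝ) = ((m : ℝ) + 1)⁻¹ := by rw [hvd]; push_cast; rfl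
  have hv1 : (v : ℝ) ≤ 1 := by
    rw [hvr]
    apply inv_le_one_of_one_le₀
    have : (0 : ℝ) ≤ m := by positivity
    linarith
  have hA0 : ∀ p : Fin (m + 1) → ℝ, (∑ j, A 0 j * p j) ^ 2 ≤ N ^ 2 * ∑ j, p j ^ 2 :=
    row_le A N hA 0
  have h1 : ∀ᵐ R ∂(gmat m (m + 1) v),
      Inj z (fun i j => A i.succ j.succ + R i j.succ) := by
    have h2 := ae_inj hv hv1 z hz m (fun i j => A i.succ j.succ)
    rw [← gmat_tail m m] at h2
    have h3 := ae_of_ae_map (by
      apply Measurable.aemeasurable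
      exact measurable_pi_lambda _ (fun i => measurable_pi_lambda _
        (fun j => measurable_entry i j.succ))) h2
    exact h3
  set c : ℝ := ρ ^ 2 / (v * |z.im|) with hc
  have hc0 : 0 ≤ c := by positivity
  have hceq : c = ρ ^ 2 * (m + 1) / |z.im| := by
    rw [hc, hvr]; field_simp
  rw [gmat_succ_apply (measurableSet_SE z ρ (Pi.single 0 1) A)]
  calc ∫⁻ R, gpi (Fin (m + 1)) v {g | (Fin.cons g R : Fin (m + 1) → Fin (m + 1) → ℝ) ∈
        {G | SE z ρ (A + G) (Pi.single 0 1)}} ∂(gmat m (m + 1) v)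
      ≤ ∫⁻ R, (ENNReal.ofReal (c * (20 + 11 * N + 2 * |z.im| + 4 * |z.re|)) +
          ENNReal.ofReal (4 * c) * ENNReal.ofReal (opn R ^ 2)) ∂(gmat m (m + 1) v) := by
        apply lintegral_mono_ae
        filter_upwards [h1] with R hR
        have hb := cond_bound hv hv1 z hz N (2 * N + 2 * opn R) ρ hN
          (by have := opn_nonneg R; positivity) hρ (A 0) hA0 (fun i => A i.succ + R i)
          (low_bound A N hN hA R) (by
            intro u hu
            apply hR
            intro i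
            exact hu i)
        rw [← section_eq] at hb
        refine le_trans hb ?_
        rw [← ENNReal.ofReal_mul (by positivity), ← ENNReal.ofReal_add (by positivity)
          (by positivity)]
        apply ENNReal.ofReal_le_ofReal
        rw [← hc]
        have h2 : 16 + 3 * N + 2 * (|z.im| + 2 * |z.re| + 2 * (2 * N + 2 * opn R)) ≤
            (20 + 11 * N + 2 * |z.im| + 4 * |z.re|) + 4 * opn R ^ 2 := by
          nlinarith [sq_nonneg (opn R - 1)]
        calc c * (16 + 3 * N + 2 * (|z.im| + 2 * |z.re| + 2 * (2 * N + 2 * opn R)))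
            ≤ c * ((20 + 11 * N + 2 * |z.im| + 4 * |z.re|) + 4 * opn R ^ 2) :=
              mul_le_mul_of_nonneg_left h2 hc0
          _ = _ := by ring
    _ = ENNReal.ofReal (c * (20 + 11 * N + 2 * |z.im| + 4 * |z.re|)) +
          ENNReal.ofReal (4 * c) * ∫⁻ R, ENNReal.ofReal (opn R ^ 2) ∂(gmat m (m + 1) v) := by
        have hm := measurable_opn (m := m) (k := m + 1)
        rw [lintegral_add_left measurable_const, lintegral_const_mul _ (by fun_prop),
          lintegral_const, measure_univ, mul_one]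
    _ ≤ ENNReal.ofReal (c * (20 + 11 * N + 2 * |z.im| + 4 * |z.re|)) +
          ENNReal.ofReal (4 * c) * 64 := by
        gcongr
        exact lint_opn_sq (m + 1) (by omega) (by omega) le_rfl
    _ = ENNReal.ofReal (ρ ^ 2 * (m + 1) / |z.im| *
        (276 + 11 * N + 2 * |z.im| + 4 * |z.re|)) := by
        rw [show (64 : ℝ≥0∞) = ENNReal.ofReal 64 by simp, ← ENNReal.ofReal_mul (by positivity),
          ← ENNReal.ofReal_add (by positivity) (by positivity), ← hceq]
        congr 1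
        ring

end Pool.Agent.Work.MP_ceabe6_pr
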