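import Pool.Agent.Work.MP_ceabe6_pr.Gauss

/-!
# The operator norm of a Gaussian matrix has a bounded second moment
-/

namespace Pool.Agent.Work.MP_ceabe6_pr

open MeasureTheory ProbabilityTheory Metric
open scoped NNReal ENNReal

/-- law of an `m × k` matrix of independent centred Gaussians of variance `v` -/
noncomputable abbrev gmat (m k : ℕ) (v : ℝ≥0) : Measure (Fin m → Fin k → ℝ) :=
  Measure.pi (fun _ : Fin m => gpi (Fin k) v)

/-- a rectangular matrix as a continuous linear map between Euclidean spaces -/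
noncomputable def clm (m k : ℕ) : (Fin m → Fin k → ℝ) →ₗ[ℝ]
    (EuclideanSpace ℝ (Fin k) →L[ℝ] EuclideanSpace ℝ (Fin m)) :=
  (LinearMap.toContinuousLinearMap :
    (EuclideanSpace ℝ (Fin k) →ₗ[ℝ] EuclideanSpace ℝ (Fin m)) ≃ₗ[ℝ] _).toLinearMap ∘ₗ
  (Matrix.toEuclideanLin : Matrix (Fin m) (Fin k) ℝ ≃ₗ[ℝ] _).toLinearMap ∘ₗ
  (Matrix.ofLinearEquiv ℝ : (Fin m → Fin k → ℝ) ≃ₗ[ℝ] Matrix (Fin m) (Fin k) ℝ).toLinearMap

variable {m k : ℕ} {v : ℝ≥0}

lemma clm_apply (R : Fin m → Fin k → ℝ) (p : EuclideanSpace ℝ (Fin k)) (i : Fin m) :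
    clm m k R p i = ∑ j, R i j * p j := rfl

lemma norm_clm_sq (R : Fin m → Fin k → ℝ) (p : EuclideanSpace ℝ (Fin k)) :
    ‖clm m k R p‖ ^ 2 = ∑ i, (∑ j, R i j * p j) ^ 2 := by
  rw [EuclideanSpace.norm_sq_eq]
  apply Finset.sum_congr rfl
  intro i _
  rw [clm_apply, Real.norm_eq_abs, sq_abs]

lemma norm_sq_eq' (p : EuclideanSpace ℝ (Fin k)) : ‖p‖ ^ 2 = ∑ j, p j ^ 2 := by
  rw [EuclideanSpace.norm_sq_eq]
  apply Finset.sum_congr rfl
  intro i _
  rw [Real.norm_eq_abs, sq_abs]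

/-- operator norm -/
noncomputable def opn (R : Fin m → Fin k → ℝ) : ℝ := ‖clm m k R‖

lemma opn_nonneg (R : Fin m → Fin k → ℝ) : 0 ≤ opn R := norm_nonneg _

lemma opn_bound (R : Fin m → Fin k → ℝ) (p : Fin k → ℝ) :
    ∑ i, (∑ j, R i j * p j) ^ 2 ≤ opn R ^ 2 * ∑ j, p j ^ 2 := by
  have h := (clm m k R).le_opNorm (WithLp.toLp 2 p)
  have h2 := norm_clm_sq R (WithLp.toLp 2 p)
  have h3 := norm_sq_eq' (WithLp.toLp 2 p)
  simp only at h2 h3
  rw [← h2, ← h3, ← mul_pow]
  exact pow_le_pow_left₀ (norm_nonneg _) h 2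

lemma measurable_opn : Measurable (opn : (Fin m → Fin k → ℝ) → ℝ) :=
  ((clm m k).continuous_of_finiteDimensional.norm).measurable

/-- `∫ exp(x²/4) dN(0,1) = √2` -/
lemma lint_exp_quarter :
    ∫⁻ x, ENNReal.ofReal (Real.exp (x ^ 2 / 4)) ∂(gaussianReal 0 1) = ENNReal.ofReal (√2) := by
  rw [gaussianReal_of_var_ne_zero 0 one_ne_zero,
    lintegral_withDensity_eq_lintegral_mul _ (measurable_gaussianPDF 0 1) (by fun_prop)]
  have h1 : ∀ x : ℝ, (gaussianPDF 0 1 * fun x => ENNReal.ofReal (Real.exp (x ^ 2 / 4))) x =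
      ENNReal.ofReal ((√(2 * Real.pi))⁻¹ * Real.exp (-(1/4) * x ^ 2)) := by
    intro x
    simp only [Pi.mul_apply, gaussianPDF, gaussianPDFReal]
    rw [← ENNReal.ofReal_mul (by positivity)]
    congr 1
    rw [mul_assoc, ← Real.exp_add]
    simp only [NNReal.coe_one, mul_one, sub_zero]
    congr 2
    ring
  rw [lintegral_congr h1]
  rw [← ofReal_integral_eq_lintegral_ofReal]
  · rw [integral_const_mul, integral_gaussian]
    congr 1
    rw [Real.sqrt_mul (by norm_num) Real.pi, show Real.pi / (1/4) = 4 * Real.pi by ring,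
      Real.sqrt_mul (by norm_num) Real.pi, show (4:ℝ) = 2 ^ 2 by norm_num,
      Real.sqrt_sq (by norm_num)]
    have hpi : √Real.pi ≠ 0 := by positivity
    have h2 : √2 ≠ 0 := by positivity
    field_simp
    norm_num
  · exact (integrable_exp_neg_mul_sq (by norm_num)).const_mul _
  · exact ae_of_all _ (fun x => by positivity)

/-- one row: `E exp(λ (g·r)²) ≤ √2` as soon as `λ v |r|² ≤ 1/4` -/
lemma lint_exp_row (r : Fin k → ℝ) (lam : ℝ)
    (h : lam * (v * ∑ j, r j ^ 2) ≤ 1 / 4) :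
    ∫⁻ g, ENNReal.ofReal (Real.exp (lam * (∑ j, g j * r j) ^ 2)) ∂(gpi (Fin k) v) ≤
      ENNReal.ofReal (√2) := by
  have hs : 0 ≤ v * ∑ j, r j ^ 2 := mul_nonneg v.2 (Finset.sum_nonneg (fun i _ => sq_nonneg _))
  set s : ℝ := √(v * ∑ j, r j ^ 2) with hs'
  have hs2 : s ^ 2 = v * ∑ j, r j ^ 2 := Real.sq_sqrt hs
  have h1 : (gpi (Fin k) v).map (fun g => ∑ j, r j * g j) =
      (gaussianReal 0 1).map (s * ·) := by
    rw [map_lin, gaussianReal_map_const_mul]
    congr 1
    · simp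
    · apply NNReal.eq
      rw [Real.coe_toNNReal _ hs, ← hs2]
      simp
  calc ∫⁻ g, ENNReal.ofReal (Real.exp (lam * (∑ j, g j * r j) ^ 2)) ∂(gpi (Fin k) v)
      = ∫⁻ g, (fun x : ℝ => ENNReal.ofReal (Real.exp (lam * x ^ 2))) (∑ j, r j * g j)
          ∂(gpi (Fin k) v) := by
        apply lintegral_congr
        intro g
        have : ∑ j, g j * r j = ∑ j, r j * g j :=
          Finset.sum_congr rfl (fun j _ => mul_comm _ _)
        rw [this]
    _ = ∫⁻ x, ENNReal.ofReal (Real.exp (lam * x ^ 2))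
          ∂((gpi (Fin k) v).map (fun g => ∑ j, r j * g j)) := by
        rw [lintegral_map (by fun_prop) (measurable_lin r)]
    _ = ∫⁻ x, ENNReal.ofReal (Real.exp (lam * (s * x) ^ 2)) ∂(gaussianReal 0 1) := by
        rw [h1, lintegral_map (by fun_prop) (by fun_prop)]
    _ ≤ ∫⁻ x, ENNReal.ofReal (Real.exp (x ^ 2 / 4)) ∂(gaussianReal 0 1) := by
        apply lintegral_mono
        intro x
        apply ENNReal.ofReal_le_ofReal
        apply Real.exp_le_exp.mpr
        rw [mul_pow, hs2]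
        nlinarith [sq_nonneg x]
    _ = _ := lint_exp_quarter

lemma meas_exp_row (r : Fin k → ℝ) (lam : ℝ) : Measurable (fun g : Fin k → ℝ =>
    ENNReal.ofReal (Real.exp (lam * (∑ j, g j * r j) ^ 2))) := by
  have : Measurable (fun g : Fin k → ℝ => ∑ j, g j * r j) :=
    Finset.measurable_sum _ (fun i _ => (measurable_pi_apply i).mul measurable_const)
  fun_prop

/-- `E exp(λ |R r|²) ≤ √2 ^ m` -/
lemma lint_exp_mat (r : EuclideanSpace ℝ (Fin k)) (lam : ℝ)
    (h : lam * (v * ‖r‖ ^ 2) ≤ 1 / 4) :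
    ∫⁻ R, ENNReal.ofReal (Real.exp (lam * ‖clm m k R r‖ ^ 2)) ∂(gmat m k v) ≤
      ENNReal.ofReal (√2) ^ m := by
  have hind : iIndepFun (fun (i : Fin m) (R : Fin m → Fin k → ℝ) =>
      (fun g : Fin k → ℝ => ENNReal.ofReal (Real.exp (lam * (∑ j, g j * r j) ^ 2))) (R i))
      (gmat m k v) :=
    iIndepFun_pi (X := fun (_ : Fin m) (g : Fin k → ℝ) =>
      ENNReal.ofReal (Real.exp (lam * (∑ j, g j * r j) ^ 2)))
        (fun _ => (meas_exp_row r lam).aemeasurable)
  have hmeas := meas_exp_row (k := k) r lam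
  calc ∫⁻ R, ENNReal.ofReal (Real.exp (lam * ‖clm m k R r‖ ^ 2)) ∂(gmat m k v)
      = ∫⁻ R, ∏ i : Fin m, ENNReal.ofReal (Real.exp (lam * (∑ j, R i j * r j) ^ 2))
          ∂(gmat m k v) := by
        apply lintegral_congr
        intro R
        rw [norm_clm_sq, Finset.mul_sum, Real.exp_sum,
          ENNReal.ofReal_prod_of_nonneg (fun i _ => (Real.exp_pos _).le)]
    _ = ∏ i : Fin m, ∫⁻ R, ENNReal.ofReal (Real.exp (lam * (∑ j, R i j * r j) ^ 2))
          ∂(gmat m k v) :=
        lintegral_prod_eq_prod_lintegral_of_indepFun Finset.univ _ hind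
          (fun i => hmeas.comp (measurable_pi_apply i))
    _ ≤ ∏ _i : Fin m, ENNReal.ofReal (√2) := by
        apply Finset.prod_le_prod' 
        intro i _
        have hmp := (measurePreserving_eval (fun _ : Fin m => gpi (Fin k) v) i)
        have := hmp.lintegral_comp hmeas
        calc ∫⁻ R, ENNReal.ofReal (Real.exp (lam * (∑ j, R i j * r j) ^ 2)) ∂(gmat m k v)
            = ∫⁻ g, ENNReal.ofReal (Real.exp (lam * (∑ j, g j * r j) ^ 2)) ∂(gpi (Fin k) v) := this
          _ ≤ _ := by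
            apply lint_exp_row _ lam
            rw [norm_sq_eq'] at h
            exact h
    _ = _ := by rw [Finset.prod_const, Finset.card_univ, Fintype.card_fin]

/-- the continuous net bound for a fixed matrix -/
lemma net_bound (R : Fin m → Fin k → ℝ) (lam : ℝ) (hlam : 0 ≤ lam) :
    ENNReal.ofReal (Real.exp (lam * (25 / 64 * opn R ^ 2))) *
        volume (ball (0 : EuclideanSpace ℝ (Fin k)) (1 / 4)) ≤
      ∫⁻ r in ball (0 : EuclideanSpace ℝ (Fin k)) (5 / 4),
        ENNReal.ofReal (Real.exp (lam * ‖clm m k R r‖ ^ 2)) := by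
  obtain ⟨x, hx1, hx2⟩ : ∃ x : EuclideanSpace ℝ (Fin k), ‖x‖ < 1 ∧
      7 / 8 * opn R ≤ ‖clm m k R x‖ := by
    rcases (opn_nonneg R).eq_or_lt with h | h
    · exact ⟨0, by simp, by rw [← h]; simp⟩
    · obtain ⟨x, hx1, hx2⟩ := (clm m k R).exists_lt_apply_of_lt_opNorm
        (show 7 / 8 * opn R < ‖clm m k R‖ by unfold opn at *; linarith)
      exact ⟨x, hx1, hx2.le⟩
  have hsub : ball x (1 / 4) ⊆ ball (0 : EuclideanSpace ℝ (Fin k)) (5 / 4) := by
    apply ball_subset_ball'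
    rw [dist_zero_right]
    linarith
  calc ENNReal.ofReal (Real.exp (lam * (25 / 64 * opn R ^ 2))) *
        volume (ball (0 : EuclideanSpace ℝ (Fin k)) (1 / 4))
      = ENNReal.ofReal (Real.exp (lam * (25 / 64 * opn R ^ 2))) * volume (ball x (1 / 4)) := by
        rw [Measure.addHaar_ball_center volume x]
    _ = ∫⁻ _r in ball x (1 / 4), ENNReal.ofReal (Real.exp (lam * (25 / 64 * opn R ^ 2))) := by
        rw [setLIntegral_const]
    _ ≤ ∫⁻ r in ball x (1 / 4), ENNReal.ofReal (Real.exp (lam * ‖clm m k R r‖ ^ 2)) := by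
        apply setLIntegral_mono' measurableSet_ball
        intro r hr
        apply ENNReal.ofReal_le_ofReal
        apply Real.exp_le_exp.mpr
        apply mul_le_mul_of_nonneg_left _ hlam
        rw [mem_ball, dist_eq_norm] at hr
        have h1 : ‖clm m k R r‖ ≥ 5 / 8 * opn R := by
          have h2 : ‖clm m k R x‖ - ‖clm m k R (x - r)‖ ≤ ‖clm m k R r‖ := by
            have : clm m k R r = clm m k R x - clm m k R (x - r) := by
              rw [map_sub]; abel
            rw [this]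
            exact norm_sub_norm_le _ _
          have h3 : ‖clm m k R (x - r)‖ ≤ opn R * (1 / 4) := by
            refine ((clm m k R).le_opNorm _).trans ?_
            apply mul_le_mul_of_nonneg_left _ (norm_nonneg _)
            rw [norm_sub_rev]
            exact hr.le
          linarith
        have h2 := opn_nonneg R
        nlinarith
    _ ≤ _ := lintegral_mono_set hsub

/-- exponential moment of the squared operator norm -/
lemma lint_exp_opn (hv : v ≠ 0) :
    ∫⁻ R, ENNReal.ofReal (Real.exp (opn R ^ 2 / (16 * v))) ∂(gmat m k v) ≤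
      5 ^ k * ENNReal.ofReal (√2) ^ m := by
  have hvpos : (0 : ℝ) < v := by positivity
  set lam : ℝ := 4 / (25 * v) with hlam
  have hlam0 : 0 ≤ lam := by positivity
  have hexp : ∀ R : Fin m → Fin k → ℝ, opn R ^ 2 / (16 * v) = lam * (25 / 64 * opn R ^ 2) := by
    intro R
    rw [hlam]
    field_simp
    ring
  have hcont : Continuous (fun q : (Fin m → Fin k → ℝ) × EuclideanSpace ℝ (Fin k) =>
      ENNReal.ofReal (Real.exp (lam * ‖clm m k q.1 q.2‖ ^ 2))) := by
    have h1 : Continuous (fun q : (Fin m → Fin k → ℝ) × EuclideanSpace ℝ (Fin k) =>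
        clm m k q.1 q.2) := by
      have := ((clm m k).continuous_of_finiteDimensional.comp
        (continuous_fst (X := Fin m → Fin k → ℝ) (Y := EuclideanSpace ℝ (Fin k)))).clm_apply
        continuous_snd
      exact this
    exact ENNReal.continuous_ofReal.comp (Real.continuous_exp.comp
      (continuous_const.mul (h1.norm.pow 2)))
  have hV0 : volume (ball (0 : EuclideanSpace ℝ (Fin k)) 1) ≠ 0 :=
    (measure_ball_pos volume _ one_pos).ne'
  have hV1 : volume (ball (0 : EuclideanSpace ℝ (Fin k)) 1) ≠ ∞ := measure_ball_lt_top.ne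
  set V := volume (ball (0 : EuclideanSpace ℝ (Fin k)) 1) with hV
  have h14 : volume (ball (0 : EuclideanSpace ℝ (Fin k)) (1 / 4)) =
      ENNReal.ofReal ((1 / 4) ^ k) * V := by
    rw [Measure.addHaar_ball_of_pos volume _ (by norm_num), finrank_euclideanSpace,
      Fintype.card_fin]
  have h54 : volume (ball (0 : EuclideanSpace ℝ (Fin k)) (5 / 4)) =
      ENNReal.ofReal ((5 / 4) ^ k) * V := by
    rw [Measure.addHaar_ball_of_pos volume _ (by norm_num), finrank_euclideanSpace,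
      Fintype.card_fin]
  have hmain : (∫⁻ R, ENNReal.ofReal (Real.exp (opn R ^ 2 / (16 * v))) ∂(gmat m k v)) *
      (ENNReal.ofReal ((1 / 4) ^ k) * V) ≤
      (5 ^ k * ENNReal.ofReal (√2) ^ m) * (ENNReal.ofReal ((1 / 4) ^ k) * V) := by
    rw [← h14]
    calc (∫⁻ R, ENNReal.ofReal (Real.exp (opn R ^ 2 / (16 * v))) ∂(gmat m k v)) *
          volume (ball (0 : EuclideanSpace ℝ (Fin k)) (1 / 4))
        = ∫⁻ R, ENNReal.ofReal (Real.exp (opn R ^ 2 / (16 * v))) *
            volume (ball (0 : EuclideanSpace ℝ (Fin k)) (1 / 4)) ∂(gmat m k v) := by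
          rw [lintegral_mul_const]
          have := measurable_opn (m := m) (k := k)
          fun_prop
      _ ≤ ∫⁻ R, (∫⁻ r in ball (0 : EuclideanSpace ℝ (Fin k)) (5 / 4),
            ENNReal.ofReal (Real.exp (lam * ‖clm m k R r‖ ^ 2))) ∂(gmat m k v) := by
          apply lintegral_mono
          intro R
          show ENNReal.ofReal (Real.exp (opn R ^ 2 / (16 * v))) *
            volume (ball (0 : EuclideanSpace ℝ (Fin k)) (1 / 4)) ≤ _
          rw [hexp]
          exact net_bound R lam hlam0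
      _ = ∫⁻ r in ball (0 : EuclideanSpace ℝ (Fin k)) (5 / 4), (∫⁻ R,
            ENNReal.ofReal (Real.exp (lam * ‖clm m k R r‖ ^ 2)) ∂(gmat m k v)) := by
          rw [lintegral_lintegral_swap]
          exact hcont.measurable.aemeasurable
      _ ≤ ∫⁻ _r in ball (0 : EuclideanSpace ℝ (Fin k)) (5 / 4), ENNReal.ofReal (√2) ^ m := by
          apply setLIntegral_mono' measurableSet_ball
          intro r hr
          apply lint_exp_mat
          rw [mem_ball, dist_zero_right] at hr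
          rw [hlam]
          have h1 : ‖r‖ ^ 2 ≤ (5 / 4) ^ 2 := pow_le_pow_left₀ (norm_nonneg _) hr.le 2
          have h2 : 4 / (25 * (v : ℝ)) * (v * ‖r‖ ^ 2) = 4 / 25 * ‖r‖ ^ 2 := by
            field_simp
          rw [h2]
          nlinarith
      _ = (5 ^ k * ENNReal.ofReal (√2) ^ m) *
            volume (ball (0 : EuclideanSpace ℝ (Fin k)) (1 / 4)) := by
          rw [setLIntegral_const, h54, h14]
          have : ENNReal.ofReal ((5 / 4) ^ k) = 5 ^ k * ENNReal.ofReal ((1 / 4) ^ k) := by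
            rw [show ((5 : ℝ) / 4) ^ k = 5 ^ k * (1 / 4) ^ k by rw [← mul_pow]; norm_num,
              ENNReal.ofReal_mul (by positivity), ENNReal.ofReal_pow (by norm_num)]
            simp
          rw [this]
          ring
  refine (ENNReal.mul_le_mul_iff_left ?_ ?_).mp hmain
  · have : ENNReal.ofReal ((1 / 4) ^ k) ≠ 0 := by
      rw [ne_eq, ENNReal.ofReal_eq_zero, not_le]; positivity
    exact mul_ne_zero this hV0
  · exact ENNReal.mul_ne_top ENNReal.ofReal_ne_top hV1

/-- `E ‖R‖² ≤ 64` -/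
theorem lint_opn_sq (n : ℕ) (hn : 1 ≤ n) (hm : m ≤ n) (hk : k ≤ n) :
    ∫⁻ R, ENNReal.ofReal (opn R ^ 2) ∂(gmat m k ((n : ℝ≥0)⁻¹)) ≤ 64 := by
  have hn0 : (0 : ℝ) < n := by exact_mod_cast hn
  have hv : ((n : ℝ≥0)⁻¹) ≠ 0 := by
    rw [ne_eq, inv_eq_zero]; exact_mod_cast (by omega : n ≠ 0)
  have h := lint_exp_opn (m := m) (k := k) hv
  have hpt : ∀ R : Fin m → Fin k → ℝ, ENNReal.ofReal (opn R ^ 2) ≤
      ENNReal.ofReal (16 / n) * (ENNReal.ofReal (3 * n) + ENNReal.ofReal (Real.exp (-(3 * n))) *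
        ENNReal.ofReal (Real.exp (opn R ^ 2 / (16 * ((n : ℝ≥0)⁻¹ : ℝ≥0))))) := by
    intro R
    rw [← ENNReal.ofReal_mul (by positivity), ← ENNReal.ofReal_add (by positivity) (by positivity),
      ← ENNReal.ofReal_mul (by positivity), ← Real.exp_add]
    apply ENNReal.ofReal_le_ofReal
    have h1 : opn R ^ 2 / (16 * (((n : ℝ≥0)⁻¹ : ℝ≥0) : ℝ)) = n * opn R ^ 2 / 16 := by
      push_cast
      field_simp
    rw [h1]
    have h2 := Real.add_one_le_exp (-(3 * (n : ℝ)) + n * opn R ^ 2 / 16)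
    have h3 : n * opn R ^ 2 / 16 ≤ 3 * n + Real.exp (-(3 * (n : ℝ)) + n * opn R ^ 2 / 16) := by
      linarith
    calc opn R ^ 2 = 16 / n * (n * opn R ^ 2 / 16) := by field_simp
      _ ≤ _ := by gcongr
  have hconst : ENNReal.ofReal (Real.exp (-(3 * n))) * (5 ^ k * ENNReal.ofReal (√2) ^ m) ≤ 1 := by
    have h1 : (5 : ℝ≥0∞) ^ k ≤ 5 ^ n := pow_le_pow_right₀ (by norm_num) hk
    have h2 : ENNReal.ofReal (√2) ^ m ≤ 2 ^ n := by
      calc ENNReal.ofReal (√2) ^ m ≤ 2 ^ m := by
            gcongr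
            rw [show (2 : ℝ≥0∞) = ENNReal.ofReal 2 by simp]
            apply ENNReal.ofReal_le_ofReal
            rw [Real.sqrt_le_left (by norm_num)]
            norm_num
        _ ≤ 2 ^ n := pow_le_pow_right₀ (by norm_num) hm
    have h3 : ENNReal.ofReal (Real.exp (-(3 * n))) * ENNReal.ofReal (10 ^ n) ≤ 1 := by
      rw [← ENNReal.ofReal_mul (by positivity), ENNReal.ofReal_le_one,
        show Real.exp (-(3 * (n : ℝ))) = (Real.exp (-3)) ^ n by
          rw [← Real.exp_nat_mul]; congr 1; ring, ← mul_pow]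
      apply pow_le_one₀ (by positivity)
      have h4 : (10 : ℝ) ≤ Real.exp 3 := by
        have := Real.exp_one_gt_d9
        have h5 : Real.exp 3 = Real.exp 1 ^ 3 := by
          rw [← Real.exp_nat_mul]; norm_num
        rw [h5]
        calc (10 : ℝ) ≤ (2.7 : ℝ) ^ 3 := by norm_num
          _ ≤ _ := by gcongr; linarith
      rw [Real.exp_neg, inv_mul_le_iff₀ (Real.exp_pos 3)]
      linarith
    calc ENNReal.ofReal (Real.exp (-(3 * n))) * (5 ^ k * ENNReal.ofReal (√2) ^ m)
        ≤ ENNReal.ofReal (Real.exp (-(3 * n))) * (5 ^ n * 2 ^ n) := by gcongr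
      _ = ENNReal.ofReal (Real.exp (-(3 * n))) * ENNReal.ofReal (10 ^ n) := by
          rw [← mul_pow, ENNReal.ofReal_pow (by norm_num)]
          norm_num
      _ ≤ 1 := h3
  calc ∫⁻ R, ENNReal.ofReal (opn R ^ 2) ∂(gmat m k ((n : ℝ≥0)⁻¹))
      ≤ ∫⁻ R, ENNReal.ofReal (16 / n) * (ENNReal.ofReal (3 * n) +
          ENNReal.ofReal (Real.exp (-(3 * n))) *
        ENNReal.ofReal (Real.exp (opn R ^ 2 / (16 * ((n : ℝ≥0)⁻¹ : ℝ≥0)))))
          ∂(gmat m k ((n : ℝ≥0)⁻¹)) := lintegral_mono hpt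
    _ = ENNReal.ofReal (16 / n) * (ENNReal.ofReal (3 * n) +
          ENNReal.ofReal (Real.exp (-(3 * n))) *
        ∫⁻ R, ENNReal.ofReal (Real.exp (opn R ^ 2 / (16 * ((n : ℝ≥0)⁻¹ : ℝ≥0))))
          ∂(gmat m k ((n : ℝ≥0)⁻¹))) := by
        have := measurable_opn (m := m) (k := k)
        rw [lintegral_const_mul _ (by fun_prop), lintegral_add_left (by fun_prop),
          lintegral_const_mul _ (by fun_prop), lintegral_const, measure_univ, mul_one]
    _ ≤ ENNReal.ofReal (16 / n) * (ENNReal.ofReal (3 * n) +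
          ENNReal.ofReal (Real.exp (-(3 * n))) * (5 ^ k * ENNReal.ofReal (√2) ^ m)) := by
        gcongr
    _ ≤ ENNReal.ofReal (16 / n) * (ENNReal.ofReal (3 * n) + 1) := by gcongr
    _ ≤ 64 := by
        rw [show (1 : ℝ≥0∞) = ENNReal.ofReal 1 by simp, ← ENNReal.ofReal_add (by positivity)
          (by norm_num), ← ENNReal.ofReal_mul (by positivity),
          show (64 : ℝ≥0∞) = ENNReal.ofReal 64 by simp]
        apply ENNReal.ofReal_le_ofReal
        have : (1 : ℝ) ≤ n := by exact_mod_cast hn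
        rw [div_mul_eq_mul_div, div_le_iff₀ hn0]
        nlinarith

end Pool.Agent.Work.MP_ceabe6_pr
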