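import Pool.Agent.Work.MP_ceabe6_pr.Null

/-!
# Rotation: from a general direction `r` to `e₀`
-/

namespace Pool.Agent.Work.MP_ceabe6_pr

open MeasureTheory ProbabilityTheory
open scoped NNReal ENNReal

variable {m k n : ℕ} {v : ℝ≥0}

lemma orth_sums (Q : Matrix (Fin n) (Fin n) ℝ) (h1 : Q * Q.transpose = 1) (i j : Fin n) :
    ∑ k, Q i k * Q j k = if i = j then 1 else 0 := by
  have := congrFun (congrFun h1 i) j
  rw [Matrix.mul_apply, Matrix.one_apply] at this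
  simpa [Matrix.transpose_apply] using this

lemma orth_sums' (Q : Matrix (Fin n) (Fin n) ℝ) (h2 : Q.transpose * Q = 1) (k l : Fin n) :
    ∑ i, Q i k * Q i l = if k = l then 1 else 0 := by
  have := congrFun (congrFun h2 k) l
  rw [Matrix.mul_apply, Matrix.one_apply] at this
  simpa [Matrix.transpose_apply] using this

lemma sum_sq_orth (Q : Matrix (Fin n) (Fin n) ℝ) (h2 : Q.transpose * Q = 1) (w : Fin n → ℝ) :
    ∑ i, (∑ k, Q i k * w k) ^ 2 = ∑ k, w k ^ 2 := by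
  have h1 : ∀ i, (∑ k, Q i k * w k) ^ 2 = ∑ k, ∑ l, (w k * w l) * (Q i k * Q i l) := by
    intro i
    rw [pow_two, Finset.sum_mul_sum]
    apply Finset.sum_congr rfl
    intro k _
    apply Finset.sum_congr rfl
    intro l _
    ring
  simp_rw [h1]
  rw [Finset.sum_comm]
  apply Finset.sum_congr rfl
  intro k _
  rw [Finset.sum_comm]
  have h3 : ∀ l, ∑ i, w k * w l * (Q i k * Q i l) = if k = l then w k * w l else 0 := by
    intro l
    rw [← Finset.mul_sum, orth_sums' Q h2 k l]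
    simp
  rw [Finset.sum_congr rfl (fun l _ => h3 l)]
  simp [pow_two]

lemma sum_norm_sq_orth (Q : Matrix (Fin n) (Fin n) ℝ) (h2 : Q.transpose * Q = 1) (w : Fin n → ℂ) :
    ∑ i, ‖∑ k, (Q i k : ℂ) * w k‖ ^ 2 = ∑ k, ‖w k‖ ^ 2 := by
  have h3 : ∀ c : ℂ, ‖c‖ ^ 2 = c.re ^ 2 + c.im ^ 2 := by
    intro c
    rw [Complex.sq_norm, Complex.normSq_apply]
    ring
  have h4 : ∀ i, (∑ k, (Q i k : ℂ) * w k).re = ∑ k, Q i k * (w k).re := by
    intro i
    simp [Complex.re_sum]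
  have h5 : ∀ i, (∑ k, (Q i k : ℂ) * w k).im = ∑ k, Q i k * (w k).im := by
    intro i
    simp [Complex.im_sum]
  simp_rw [h3, h4, h5]
  rw [Finset.sum_add_distrib, Finset.sum_add_distrib, sum_sq_orth Q h2 (fun k => (w k).re),
    sum_sq_orth Q h2 (fun k => (w k).im)]

lemma orth_inv (Q : Matrix (Fin n) (Fin n) ℝ) (h2 : Q.transpose * Q = 1) (w : Fin n → ℂ)
    (l : Fin n) : ∑ j, (Q j l : ℂ) * ∑ k, (Q j k : ℂ) * w k = w l := by
  simp_rw [Finset.mul_sum]
  rw [Finset.sum_comm]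
  have h3 : ∀ k, ∑ j, (Q j l : ℂ) * ((Q j k : ℂ) * w k) = if l = k then w k else 0 := by
    intro k
    have : ∑ j, (Q j l : ℂ) * ((Q j k : ℂ) * w k) = ((∑ j, Q j l * Q j k : ℝ) : ℂ) * w k := by
      push_cast
      rw [Finset.sum_mul]
      exact Finset.sum_congr rfl (fun j _ => by ring)
    rw [this, orth_sums' Q h2 l k]
    split_ifs <;> simp
  rw [Finset.sum_congr rfl (fun k _ => h3 k)]
  simp

lemma SE_conj (z : ℂ) (τ ρ : ℝ) (B : Fin (m + 1) → Fin (m + 1) → ℝ) (r : Fin (m + 1) → ℝ)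
    (Q : Matrix (Fin (m + 1)) (Fin (m + 1)) ℝ) (h2 : Q.transpose * Q = 1)
    (hr : ∀ i, ∑ k, Q i k * r k = if i = 0 then ρ else 0) (h : SE z τ B r) :
    SE z (τ * ρ) (conjM Q B) (Pi.single 0 1) := by
  obtain ⟨u, hu, t, h3, h4⟩ := h
  have hnorm := sum_norm_sq_orth Q h2 u
  refine ⟨fun i => ∑ k, (Q i k : ℂ) * u k, ?_, t * ρ, ?_, ?_⟩
  · intro h0
    have h5 := sum_norm_sq_pos hu
    rw [← hnorm] at h5
    have h6 : ∀ i, ∑ k, (Q i k : ℂ) * u k = 0 := fun i => congrFun h0 i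
    simp [h6] at h5
  · intro i
    have h5 : ∑ j, ((conjM Q B i j : ℝ) : ℂ) * ∑ k, (Q j k : ℂ) * u k =
        ∑ k, (Q i k : ℂ) * ∑ l, (B k l : ℂ) * u l := by
      have h6 : ∀ j, ((conjM Q B i j : ℝ) : ℂ) * ∑ k, (Q j k : ℂ) * u k =
          ∑ k, ∑ l, (Q i k : ℂ) * (B k l : ℂ) * ((Q j l : ℂ) * ∑ p, (Q j p : ℂ) * u p) := by
        intro j
        unfold conjM
        push_cast
        rw [Finset.sum_mul]
        apply Finset.sum_congr rfl
        intro k _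
        rw [Finset.sum_mul]
        apply Finset.sum_congr rfl
        intro l _
        ring
      rw [Finset.sum_congr rfl (fun j _ => h6 j), Finset.sum_comm]
      apply Finset.sum_congr rfl
      intro k _
      rw [Finset.sum_comm, Finset.mul_sum]
      apply Finset.sum_congr rfl
      intro l _
      rw [← Finset.mul_sum, orth_inv Q h2 u l]
      ring
    rw [h5]
    have h7 : z * ∑ k, (Q i k : ℂ) * u k - ∑ k, (Q i k : ℂ) * ∑ l, (B k l : ℂ) * u l =
        ∑ k, (Q i k : ℂ) * (z * u k - ∑ l, (B k l : ℂ) * u l) := by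
      rw [Finset.mul_sum, ← Finset.sum_sub_distrib]
      apply Finset.sum_congr rfl
      intro k _
      ring
    rw [h7]
    simp_rw [h3]
    have h8 : ∑ k, (Q i k : ℂ) * (t * (r k : ℂ)) = t * ((∑ k, Q i k * r k : ℝ) : ℂ) := by
      push_cast
      rw [Finset.mul_sum]
      exact Finset.sum_congr rfl (fun k _ => by ring)
    rw [h8, hr i]
    by_cases hi : i = 0
    · subst hi; simp
    · simp [hi]
  · rw [hnorm, norm_mul, mul_pow, Complex.norm_real, Real.norm_eq_abs, sq_abs, mul_pow]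
    have : 0 ≤ ρ ^ 2 := sq_nonneg _
    calc ‖t‖ ^ 2 * ρ ^ 2 ≤ (τ ^ 2 * ∑ j, ‖u j‖ ^ 2) * ρ ^ 2 := by gcongr
      _ = _ := by ring

lemma conjM_add (Q A G : Fin n → Fin n → ℝ) : conjM Q (A + G) = conjM Q A + conjM Q G := by
  ext i j
  simp only [conjM, Pi.add_apply]
  rw [← Finset.sum_add_distrib]
  apply Finset.sum_congr rfl
  intro k _
  rw [← Finset.sum_add_distrib]
  apply Finset.sum_congr rfl
  intro l _
  ring

lemma conjM_bound (Q : Matrix (Fin n) (Fin n) ℝ) (h1 : Q * Q.transpose = 1)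
    (h2 : Q.transpose * Q = 1) (A : Fin n → Fin n → ℝ) (N : ℝ)
    (hA : ∀ p : Fin n → ℝ, ∑ i, (∑ j, A i j * p j) ^ 2 ≤ N ^ 2 * ∑ j, p j ^ 2)
    (p : Fin n → ℝ) : ∑ i, (∑ j, conjM Q A i j * p j) ^ 2 ≤ N ^ 2 * ∑ j, p j ^ 2 := by
  set q : Fin n → ℝ := fun l => ∑ j, Q j l * p j with hq
  have h3 : ∀ i, ∑ j, conjM Q A i j * p j = ∑ k, Q i k * ∑ l, A k l * q l := by
    intro i
    have h6 : ∀ j, conjM Q A i j * p j = ∑ k, ∑ l, Q i k * A k l * (Q j l * p j) := by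
      intro j
      unfold conjM
      rw [Finset.sum_mul]
      apply Finset.sum_congr rfl
      intro k _
      rw [Finset.sum_mul]
      apply Finset.sum_congr rfl
      intro l _
      ring
    rw [Finset.sum_congr rfl (fun j _ => h6 j), Finset.sum_comm]
    apply Finset.sum_congr rfl
    intro k _
    rw [Finset.sum_comm, Finset.mul_sum]
    apply Finset.sum_congr rfl
    intro l _
    rw [← Finset.mul_sum]
    simp only [hq]
    ring
  simp_rw [h3]
  rw [sum_sq_orth Q h2]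
  refine (hA q).trans ?_
  have h4 : ∑ l, q l ^ 2 = ∑ j, p j ^ 2 := by
    have h5 := sum_sq_orth Q.transpose (by rw [Matrix.transpose_transpose]; exact h1) p
    simpa [Matrix.transpose_apply] using h5
  rw [h4]

/-- the bound for the event `SE · r`, for every direction `r` -/
theorem SE_bound_dir (m : ℕ) (z : ℂ) (hz : z.im ≠ 0) (N : ℝ) (hN : 0 ≤ N)
    (A : Fin (m + 1) → Fin (m + 1) → ℝ)
    (hA : ∀ p : Fin (m + 1) → ℝ, ∑ i, (∑ j, A i j * p j) ^ 2 ≤ N ^ 2 * ∑ j, p j ^ 2)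
    (τ : ℝ) (hτ : 0 ≤ τ) (r : Fin (m + 1) → ℝ) :
    gmat (m + 1) (m + 1) (((m + 1 : ℕ) : ℝ≥0)⁻¹) {G | SE z τ (A + G) r} ≤
      ENNReal.ofReal (τ ^ 2 * (m + 1) / |z.im| *
        (276 + 11 * N + 2 * |z.im| + 4 * |z.re|)) * ENNReal.ofReal (∑ k, r k ^ 2) := by
  obtain ⟨Q, h1, h2, h3⟩ := exists_orth r
  set ρ : ℝ := √(∑ k, r k ^ 2) with hρ
  have hs0 : 0 ≤ ∑ k, r k ^ 2 := Finset.sum_nonneg (fun k _ => sq_nonneg _)
  have hρ2 : ρ ^ 2 = ∑ k, r k ^ 2 := Real.sq_sqrt hs0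
  have hρ0 : 0 ≤ ρ := Real.sqrt_nonneg _
  have hsub : {G | SE z τ (A + G) r} ⊆
      conjM Q ⁻¹' {H | SE z (τ * ρ) (conjM Q A + H) (Pi.single 0 1)} := by
    intro G hG
    have := SE_conj z τ ρ (A + G) r Q h2 h3 hG
    have e := conjM_add Q A G
    rw [e] at this
    exact this
  have hinv := gmat_conj (v := ((m + 1 : ℕ) : ℝ≥0)⁻¹) Q
    (fun i => by
      have := orth_sums Q h1 i i
      simpa [pow_two] using this)
    (fun i j hij => by
      have := orth_sums Q h1 i j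
      simpa [hij] using this)
  calc gmat (m + 1) (m + 1) (((m + 1 : ℕ) : ℝ≥0)⁻¹) {G | SE z τ (A + G) r}
      ≤ gmat (m + 1) (m + 1) (((m + 1 : ℕ) : ℝ≥0)⁻¹)
        (conjM Q ⁻¹' {H | SE z (τ * ρ) (conjM Q A + H) (Pi.single 0 1)}) := measure_mono hsub
    _ = (gmat (m + 1) (m + 1) (((m + 1 : ℕ) : ℝ≥0)⁻¹)).map (conjM Q)
          {H | SE z (τ * ρ) (conjM Q A + H) (Pi.single 0 1)} := by
        rw [Measure.map_apply (measurable_conjM Q) (measurableSet_SE z _ _ _)]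
    _ = gmat (m + 1) (m + 1) (((m + 1 : ℕ) : ℝ≥0)⁻¹)
          {H | SE z (τ * ρ) (conjM Q A + H) (Pi.single 0 1)} := by rw [hinv]
    _ ≤ ENNReal.ofReal ((τ * ρ) ^ 2 * (m + 1) / |z.im| *
        (276 + 11 * N + 2 * |z.im| + 4 * |z.re|)) :=
        SE_bound m z hz N hN (conjM Q A) (conjM_bound Q h1 h2 A N hA) (τ * ρ) (by positivity)
    _ = _ := by
        rw [← ENNReal.ofReal_mul (by positivity)]
        congr 1
        rw [mul_pow, hρ2]
        ring

end Pool.Agent.Work.MP_ceabe6_pr
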