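import Pool.Agent.Work.MP_ceabe6_pr.Defs
import Pool.Agent.Work.MP_ceabe6_pr.Rot

/-!
# From the smallest singular value to the event `SE`
-/

namespace Pool.Agent.Work.MP_ceabe6_pr

open MeasureTheory ProbabilityTheory
open scoped NNReal ENNReal

variable {m k n : ℕ} {v : ℝ≥0}

lemma left_vector (T : EuclideanSpace ℂ (Fin n) →ₗ[ℂ] EuclideanSpace ℂ (Fin n))
    (σ ε : ℝ) (hσ0 : 0 ≤ σ) (h : σ ≤ ε) (x : EuclideanSpace ℂ (Fin n)) (hx0 : x ≠ 0)
    (hxe : (LinearMap.adjoint T) (T x) = ((σ : ℂ) ^ 2) • x) :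
    (∃ x, x ≠ 0 ∧ T x = 0) ∨
      ∃ u : EuclideanSpace ℂ (Fin n), ‖u‖ = 1 ∧ ∀ p, ‖inner ℂ u (T p)‖ ≤ ε * ‖p‖ := by
  by_cases hTx : T x = 0
  · exact Or.inl ⟨x, hx0, hTx⟩
  · right
    have hTn : 0 < ‖T x‖ := norm_pos_iff.mpr hTx
    have hxn : 0 < ‖x‖ := norm_pos_iff.mpr hx0
    have hin : ∀ p, inner ℂ (T x) (T p) = ((σ : ℂ) ^ 2) * inner ℂ x p := by
      intro p
      rw [← LinearMap.adjoint_inner_left]
      rw [hxe, inner_smul_left]
      simp
    have hnT : ‖T x‖ = σ * ‖x‖ := by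
      have h1 := hin x
      rw [inner_self_eq_norm_sq_to_K, inner_self_eq_norm_sq_to_K] at h1
      have h2 : ‖T x‖ ^ 2 = (σ * ‖x‖) ^ 2 := by
        rw [mul_pow]
        have h3 : ((‖T x‖ ^ 2 : ℝ) : ℂ) = ((σ ^ 2 * ‖x‖ ^ 2 : ℝ) : ℂ) := by
          push_cast
          simpa using h1
        exact_mod_cast h3
      exact (pow_left_inj₀ (norm_nonneg _) (by positivity) two_ne_zero).mp h2
    refine ⟨((‖T x‖⁻¹ : ℝ) : ℂ) • T x, ?_, ?_⟩
    · rw [norm_smul, Complex.norm_real, Real.norm_eq_abs, abs_of_pos (by positivity)]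
      field_simp
    · intro p
      rw [inner_smul_left, hin, norm_mul, norm_mul, norm_pow]
      simp only [Complex.conj_ofReal, Complex.norm_real, Real.norm_eq_abs, sq_abs]
      rw [abs_of_pos (by positivity)]
      have h1 := norm_inner_le_norm (𝕜 := ℂ) x p
      have hσpos : 0 < σ := by
        rcases hσ0.eq_or_lt with h0 | h0
        · rw [hnT, ← h0] at hTn; simp at hTn
        · exact h0
      calc ‖T x‖⁻¹ * (σ ^ 2 * ‖inner ℂ x p‖) ≤ ‖T x‖⁻¹ * (σ ^ 2 * (‖x‖ * ‖p‖)) := by gcongr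
        _ = σ * ‖p‖ := by rw [hnT]; field_simp
        _ ≤ ε * ‖p‖ := by gcongr

/-- the eigenvector realising the smallest singular value -/
lemma exists_right_vector (hn : 1 ≤ n) (M : Matrix (Fin n) (Fin n) ℂ) (ε : ℝ)
    (h : leastSV M ≤ ε) : ∃ σ : ℝ, 0 ≤ σ ∧ σ ≤ ε ∧ ∃ x : EuclideanSpace ℂ (Fin n), x ≠ 0 ∧
      (LinearMap.adjoint (Matrix.toEuclideanLin M)) (Matrix.toEuclideanLin M x) =
        ((σ : ℂ) ^ 2) • x := by
  have : Nonempty (Fin n) := ⟨⟨0, by omega⟩⟩
  obtain ⟨i, hi⟩ := exists_eq_ciInf_of_finite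
    (f := fun i : Fin n => √((Matrix.isHermitian_conjTranspose_mul_self M).eigenvalues i))
  set hH := Matrix.isHermitian_conjTranspose_mul_self M with hHd
  refine ⟨√(hH.eigenvalues i), Real.sqrt_nonneg _, ?_, hH.eigenvectorBasis i, ?_, ?_⟩
  · have : leastSV M = √(hH.eigenvalues i) := hi.symm
    rw [← this]; exact h
  · intro h0
    have h1 := hH.eigenvectorBasis.orthonormal.1 i
    rw [h0, norm_zero] at h1
    exact zero_ne_one h1
  · have h1 := hH.mulVec_eigenvectorBasis i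
    have h2 : 0 ≤ hH.eigenvalues i := Matrix.eigenvalues_conjTranspose_mul_self_nonneg M i
    rw [← Matrix.toEuclideanLin_conjTranspose_eq_adjoint]
    ext j
    have h3 : ((Matrix.toEuclideanLin M.conjTranspose)
        ((Matrix.toEuclideanLin M) (hH.eigenvectorBasis i))) j =
        (M.conjTranspose.mulVec (M.mulVec (hH.eigenvectorBasis i).ofLp)) j := rfl
    rw [h3, Matrix.mulVec_mulVec, h1]
    rw [← Complex.ofReal_pow, Real.sq_sqrt h2]
    rfl

/-- the deterministic part of the random direction argument -/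
lemma sst_det (hn : 1 ≤ n) (z : ℂ) (A : Matrix (Fin n) (Fin n) ℝ) (G : Fin n → Fin n → ℝ)
    (ε : ℝ) (h : leastSV (shifted z A G) ≤ ε) :
    ∃ u : Fin n → ℂ, ∑ i, ‖u i‖ ^ 2 = 1 ∧ ∀ r : Fin n → ℝ,
      1 / 2 ≤ ‖∑ i, (starRingEnd ℂ) (u i) * r i‖ ^ 2 →
      SE z (√2 * ε) ((fun i j => A i j) + G) r := by
  set T := Matrix.toEuclideanLin (shifted z A G) with hT
  have hTapp : ∀ (p : EuclideanSpace ℂ (Fin n)) (i : Fin n),
      T p i = z * p i - ∑ j, ((((fun i j => A i j) + G) i j : ℝ) : ℂ) * p j := by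
    intro p i
    have h1 : T p i = ((shifted z A G).mulVec p.ofLp) i := rfl
    rw [h1]
    unfold shifted
    rw [Matrix.sub_mulVec, Matrix.smul_mulVec, Matrix.one_mulVec]
    rfl
  obtain ⟨σ, hσ0, hσε, x0, hx00, hx0e⟩ := exists_right_vector hn (shifted z A G) ε h
  rcases left_vector T σ ε hσ0 hσε x0 hx00 hx0e with ⟨x, hx0, hTx⟩ | ⟨u, hu1, hu2⟩
  · refine ⟨Pi.single ⟨0, by omega⟩ 1, ?_, ?_⟩
    · rw [Finset.sum_eq_single (⟨0, by omega⟩ : Fin n)]
      · simp
      · intro j _ hj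
        simp [Pi.single_eq_of_ne hj]
      · intro h; exact absurd (Finset.mem_univ _) h
    · intro r _
      refine ⟨x.ofLp, ?_, 0, ?_, ?_⟩
      · intro h0
        apply hx0
        ext i
        exact congrFun h0 i
      · intro i
        have h1 := hTapp x i
        rw [hTx] at h1
        rw [zero_mul]
        exact h1.symm
      · have : 0 ≤ ∑ j, ‖x.ofLp j‖ ^ 2 := Finset.sum_nonneg (fun j _ => by positivity)
        rw [norm_zero, zero_pow two_ne_zero]
        positivity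
  · by_cases hinj : Function.Injective T
    · refine ⟨u.ofLp, ?_, ?_⟩
      · have := EuclideanSpace.norm_sq_eq u
        rw [← this, hu1, one_pow]
      · intro r hr
        have hsurj : Function.Surjective T := LinearMap.injective_iff_surjective.mp hinj
        obtain ⟨p, hp⟩ := hsurj (WithLp.toLp 2 (fun i => (r i : ℂ)))
        have hp' : ∀ i, T p i = r i := fun i => by rw [hp]
        have hinner : inner ℂ u (T p) = ∑ i, (starRingEnd ℂ) (u i) * r i := by
          rw [PiLp.inner_apply]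
          apply Finset.sum_congr rfl
          intro i _
          rw [hp' i]
          simp [mul_comm]
        have h1 : ‖∑ i, (starRingEnd ℂ) (u i) * (r i : ℂ)‖ ≤ ε * ‖p‖ := by
          rw [← hinner]; exact hu2 p
        have h2 : 1 / 2 ≤ ε ^ 2 * ‖p‖ ^ 2 := by
          rw [← mul_pow]
          exact hr.trans (pow_le_pow_left₀ (norm_nonneg _) h1 2)
        refine ⟨p.ofLp, ?_, 1, ?_, ?_⟩
        · intro h0
          have : p = 0 := by ext i; exact congrFun h0 i
          rw [this] at h2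
          simp at h2
          norm_num at h2
        · intro i
          rw [one_mul, ← hp' i, hTapp p i]
        · rw [norm_one, mul_pow, Real.sq_sqrt (by norm_num)]
          have h3 := EuclideanSpace.norm_sq_eq p
          rw [← h3]
          linarith
    · -- not injective
      have hker : ∃ x, x ≠ 0 ∧ T x = 0 := by
        by_contra hcon
        push Not at hcon
        apply hinj
        rw [injective_iff_map_eq_zero]
        intro a ha
        by_contra h0
        exact hcon a h0 ha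
      obtain ⟨x, hx0, hTx⟩ := hker
      refine ⟨u.ofLp, ?_, ?_⟩
      · have := EuclideanSpace.norm_sq_eq u
        rw [← this, hu1, one_pow]
      · intro r _
        refine ⟨x.ofLp, ?_, 0, ?_, ?_⟩
        · intro h0
          apply hx0
          ext i
          exact congrFun h0 i
        · intro i
          have h1 := hTapp x i
          rw [hTx] at h1
          rw [zero_mul]
          exact h1.symm
        · have : 0 ≤ ∑ j, ‖x.ofLp j‖ ^ 2 := Finset.sum_nonneg (fun j _ => by positivity)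
          rw [norm_zero, zero_pow two_ne_zero]
          positivity

/-- the constant `P(|N(0,1)| ≥ 1)` -/
noncomputable def kap : ℝ≥0∞ := (gaussianReal 0 1) {x | 1 ≤ |x|}

lemma kap_ne_zero : kap ≠ 0 := by
  intro h
  have h1 := gaussianReal_absolutelyContinuous' 0 (v := 1) one_ne_zero h
  have h2 : volume (Set.Icc (1 : ℝ) 2) ≤ volume {x : ℝ | 1 ≤ |x|} := by
    apply measure_mono
    intro x hx
    exact hx.1.trans (le_abs_self x)
  rw [h1, Real.volume_Icc] at h2
  norm_num at h2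

lemma kap_ne_top : kap ≠ ∞ := measure_ne_top _ _

lemma kap_real (a : Fin n → ℝ) (ha : 1 / 2 ≤ ∑ i, a i ^ 2) :
    kap ≤ gpi (Fin n) 1 {r | 1 / 2 ≤ (∑ i, a i * r i) ^ 2} := by
  have hs0 : 0 ≤ ∑ i, a i ^ 2 := by linarith
  set s : ℝ := √(∑ i, a i ^ 2) with hs
  have hs2 : s ^ 2 = ∑ i, a i ^ 2 := Real.sq_sqrt hs0
  have h1 : (gpi (Fin n) 1).map (fun g => ∑ j, a j * g j) =
      (gaussianReal 0 1).map (s * ·) := by
    rw [map_lin, gaussianReal_map_const_mul]
    congr 1
    · simp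
    · apply NNReal.eq
      rw [NNReal.coe_one, one_mul, Real.coe_toNNReal _ hs0, ← hs2]
      simp
  have hS : MeasurableSet {x : ℝ | 1 / 2 ≤ x ^ 2} :=
    measurableSet_le measurable_const (by fun_prop)
  have h2 : gpi (Fin n) 1 {r | 1 / 2 ≤ (∑ i, a i * r i) ^ 2} =
      ((gpi (Fin n) 1).map (fun g => ∑ j, a j * g j)) {x | 1 / 2 ≤ x ^ 2} := by
    rw [Measure.map_apply (measurable_lin a) hS]
    rfl
  rw [h2, h1, Measure.map_apply (by fun_prop) hS]
  apply measure_mono
  intro x hx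
  simp only [Set.mem_preimage, Set.mem_ofPred_eq] at hx ⊢
  rw [mul_pow, hs2]
  have h3 : 1 ≤ x ^ 2 := by
    rw [← sq_abs]; nlinarith
  nlinarith

lemma kap_complex (u : Fin n → ℂ) (hu : ∑ i, ‖u i‖ ^ 2 = 1) :
    kap ≤ gpi (Fin n) 1 {r | 1 / 2 ≤ ‖∑ i, (starRingEnd ℂ) (u i) * (r i : ℂ)‖ ^ 2} := by
  have h3 : ∀ c : ℂ, ‖c‖ ^ 2 = c.re ^ 2 + c.im ^ 2 := by
    intro c
    rw [Complex.sq_norm, Complex.normSq_apply]
    ring
  have hre : ∀ r : Fin n → ℝ, (∑ i, (starRingEnd ℂ) (u i) * (r i : ℂ)).re =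
      ∑ i, (u i).re * r i := by
    intro r
    simp [Complex.re_sum]
  have him : ∀ r : Fin n → ℝ, (∑ i, (starRingEnd ℂ) (u i) * (r i : ℂ)).im =
      ∑ i, (-(u i).im) * r i := by
    intro r
    simp [Complex.im_sum]
  have hsum : ∑ i, (u i).re ^ 2 + ∑ i, (-(u i).im) ^ 2 = 1 := by
    rw [← Finset.sum_add_distrib, ← hu]
    apply Finset.sum_congr rfl
    intro i _
    rw [h3]; ring
  rcases le_or_gt (1 / 2) (∑ i, (u i).re ^ 2) with hc | hc
  · refine (kap_real (fun i => (u i).re) hc).trans (measure_mono ?_)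
    intro r hr
    simp only [Set.mem_ofPred_eq] at hr ⊢
    rw [h3, hre, him]
    nlinarith [sq_nonneg (∑ i, (-(u i).im) * r i)]
  · refine (kap_real (fun i => -(u i).im) (by linarith)).trans (measure_mono ?_)
    intro r hr
    simp only [Set.mem_ofPred_eq] at hr ⊢
    rw [h3, hre, him]
    nlinarith [sq_nonneg (∑ i, (u i).re * r i)]

end Pool.Agent.Work.MP_ceabe6_pr
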